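import Pool.Agent.LiouvilleQI.Free

set_option autoImplicit false

namespace Pool.Agent.LiouvilleQI

open Finset

/-- the group -/
abbrev Gam : Type := F2 × F2

/-- the graph -/
def GG : SimpleGraph Gam where
  Adj x y := y ∈ FR.nbr bd x
  symm := ⟨fun x y h => (FR.nbr_symm bd x y).1 h⟩
  loopless := ⟨fun x h => by
    have := FR.rk_nbr bd x x h
    omega⟩

instance : GG.LocallyFinite := fun v =>
  Fintype.ofFinset (FR.nbr bd v) (fun _ => Iff.rfl)

lemma nbrFinset (v : Gam) : GG.neighborFinset v = FR.nbr bd v := by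
  ext w
  rw [SimpleGraph.mem_neighborFinset]
  rfl

/-- generators -/
def SS : Finset Gam :=
  (univ.image (fun i : Fin 2 => ((FreeGroup.of i, 1) : Gam))) ∪
  (univ.image (fun i : Fin 2 => ((1, FreeGroup.of i) : Gam)))

/-- Cayley graph -/
abbrev KK : SimpleGraph Gam := SimpleGraph.fromRel (fun a b : Gam => a⁻¹ * b ∈ SS)

lemma mem_SS (g : Gam) : g ∈ SS ↔ (∃ i : Fin 2, g = (FreeGroup.of i, 1)) ∨
    (∃ i : Fin 2, g = (1, FreeGroup.of i)) := by
  unfold SS
  simp only [mem_union, mem_image, mem_univ, true_and]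
  constructor
  · rintro (⟨i, h⟩ | ⟨i, h⟩)
    · exact Or.inl ⟨i, h.symm⟩
    · exact Or.inr ⟨i, h.symm⟩
  · rintro (⟨i, h⟩ | ⟨i, h⟩)
    · exact Or.inl ⟨i, h.symm⟩
    · exact Or.inr ⟨i, h.symm⟩

lemma mk_true (i : Fin 2) : (FreeGroup.mk [((i, true) : Let2)] : F2) = FreeGroup.of i := rfl

lemma mk_false (i : Fin 2) : (FreeGroup.mk [((i, false) : Let2)] : F2) = (FreeGroup.of i)⁻¹ := by
  have := mk_cinv ((i, true) : Let2)
  rw [mk_true] at this
  exact this

/-- an edge in the first coordinate -/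
lemma kadj1 (c : Let2) (s t : F2) : KK.Adj ((s, t)⁻¹ : Gam) ((lm c s, t)⁻¹ : Gam) := by
  rw [SimpleGraph.fromRel_adj]
  have hne : lm c s ≠ s := by
    intro h
    rcases norm_lm c s with h' | h' <;> rw [h] at h' <;> omega
  refine ⟨?_, ?_⟩
  · intro h
    have := inv_injective h
    exact hne (Prod.ext_iff.mp this).1.symm
  · rcases c with ⟨i, b⟩
    cases b
    · left
      rw [mem_SS]
      left
      refine ⟨i, ?_⟩
      unfold lm
      rw [mk_false]
      ext <;> simp
    · right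
      rw [mem_SS]
      left
      refine ⟨i, ?_⟩
      unfold lm
      rw [mk_true]
      ext <;> simp

lemma kadj2 (c : Let2) (s t : F2) : KK.Adj ((s, t)⁻¹ : Gam) ((s, lm c t)⁻¹ : Gam) := by
  rw [SimpleGraph.fromRel_adj]
  have hne : lm c t ≠ t := by
    intro h
    rcases norm_lm c t with h' | h' <;> rw [h] at h' <;> omega
  refine ⟨?_, ?_⟩
  · intro h
    have := inv_injective h
    exact hne (Prod.ext_iff.mp this).2.symm
  · rcases c with ⟨i, b⟩
    cases b
    · left
      rw [mem_SS]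
      right
      refine ⟨i, ?_⟩
      unfold lm
      rw [mk_false]
      ext <;> simp
    · right
      rw [mem_SS]
      right
      refine ⟨i, ?_⟩
      unfold lm
      rw [mk_true]
      ext <;> simp

lemma gadj1 (c : Let2) (s t : F2) : GG.Adj (s, t) (lm c s, t) := by
  show (lm c s, t) ∈ FR.nbr bd (s, t)
  unfold RT.nbr
  simp only [mem_union]
  rcases norm_lm c s with h | h
  · left
    rw [mem_product]
    exact ⟨(mem_fch _ _).2 ⟨c, rfl, h⟩, by simp⟩
  · right; right; left
    rw [mem_product]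
    exact ⟨(mem_fpr _ _).2 ⟨c, rfl, h⟩, by simp⟩

lemma gadj2 (c : Let2) (s t : F2) : GG.Adj (s, t) (s, lm c t) := by
  show (s, lm c t) ∈ FR.nbr bd (s, t)
  unfold RT.nbr
  simp only [mem_union]
  rcases norm_lm c t with h | h
  · right; left
    rw [mem_product]
    exact ⟨by simp, (mem_fch _ _).2 ⟨c, rfl, h⟩⟩
  · right; right; right; left
    rw [mem_product]
    exact ⟨by simp, (mem_fpr _ _).2 ⟨c, rfl, h⟩⟩

/-- Cayley edges are edges of the graph -/
lemma gadj_of_kadj (a b : Gam) (h : KK.Adj a b) : GG.Adj a⁻¹ b⁻¹ := by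
  rw [SimpleGraph.fromRel_adj] at h
  have key : ∀ a b : Gam, a⁻¹ * b ∈ SS → GG.Adj b⁻¹ a⁻¹ := by
    intro a b h
    rw [mem_SS] at h
    rcases h with ⟨i, hi⟩ | ⟨i, hi⟩
    · have e : a⁻¹ = (lm (i, true) b⁻¹.1, b⁻¹.2) := by
        have : a⁻¹ = ((FreeGroup.of i, 1) : Gam) * b⁻¹ := by rw [← hi]; group
        rw [this]
        unfold lm
        rw [mk_true]
        ext <;> simp
      rw [e]
      exact gadj1 (i, true) b⁻¹.1 b⁻¹.2
    · have e : a⁻¹ = (b⁻¹.1, lm (i, true) b⁻¹.2) := by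
        have : a⁻¹ = ((1, FreeGroup.of i) : Gam) * b⁻¹ := by rw [← hi]; group
        rw [this]
        unfold lm
        rw [mk_true]
        ext <;> simp
      rw [e]
      exact gadj2 (i, true) b⁻¹.1 b⁻¹.2
  rcases h.2 with h | h
  · exact (key a b h).symm
  · exact key b a h

lemma kconn : KK.Connected := by
  have hr : ∀ n : ℕ, ∀ x : Gam, FR.rk x = n → KK.Reachable x⁻¹ 1 := by
    intro n
    induction n with
    | zero =>
      intro x hx
      unfold RT.rk at hx
      have h1 : x.1 = 1 := FR.eq_root _ (by omega)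
      have h2 : x.2 = 1 := FR.eq_root _ (by omega)
      have : x = 1 := Prod.ext h1 h2
      rw [this]; simp
    | succ n ih =>
      intro x hx
      unfold RT.rk at hx
      rcases Nat.eq_zero_or_pos (FR.lev x.1) with h0 | h0
      · obtain ⟨p, hp, hpl⟩ := RT.exists_pr (R := FR) x.2 n (by omega)
        have h1 := ih (x.1, p) (by unfold RT.rk; simp only; omega)
        obtain ⟨c, hc, _⟩ := (mem_fpr p x.2).1 hp
        have h2 := kadj2 c x.1 x.2
        rw [← hc] at h2
        exact h2.reachable.trans h1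
      · obtain ⟨p, hp, hpl⟩ := RT.exists_pr (R := FR) x.1 (FR.lev x.1 - 1) (by omega)
        have h1 := ih (p, x.2) (by unfold RT.rk; simp only; omega)
        obtain ⟨c, hc, _⟩ := (mem_fpr p x.1).1 hp
        have h2 := kadj1 c x.1 x.2
        rw [← hc] at h2
        exact h2.reachable.trans h1
  have hr' : ∀ x : Gam, KK.Reachable x 1 := by
    intro x
    have := hr _ x⁻¹ rfl
    rwa [inv_inv] at this
  have : Nonempty Gam := ⟨1⟩
  exact SimpleGraph.Connected.mk (fun x y => (hr' x).trans (hr' y).symm)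

/-- homomorphism from the Cayley graph -/
def homKG : KK →g GG where
  toFun := fun a => a⁻¹
  map_rel' := fun {a b} h => gadj_of_kadj a b h

lemma gconn : GG.Connected := by
  have : Nonempty Gam := ⟨1⟩
  refine SimpleGraph.Connected.mk (fun x y => ?_)
  have := (kconn.preconnected x⁻¹ y⁻¹).map homKG
  have e1 : homKG x⁻¹ = x := inv_inv x
  have e2 : homKG y⁻¹ = y := inv_inv y
  rwa [e1, e2] at this

lemma dist1 (x y : Gam) : GG.dist x y ≤ KK.dist x⁻¹ y⁻¹ := by
  obtain ⟨w, hw⟩ := kconn.exists_walk_length_eq_dist x⁻¹ y⁻¹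
  have := SimpleGraph.dist_le (w.map homKG)
  have e1 : homKG x⁻¹ = x := inv_inv x
  have e2 : homKG y⁻¹ = y := inv_inv y
  rw [SimpleGraph.Walk.length_map, hw, e1, e2] at this
  exact this

lemma kd1 (p s t : F2) (h : p ∈ fpr s ∨ p ∈ fch s) : KK.dist (s, t)⁻¹ (p, t)⁻¹ = 1 := by
  rw [SimpleGraph.dist_eq_one_iff_adj]
  rcases h with h | h
  · obtain ⟨c, rfl, _⟩ := (mem_fpr _ _).1 h
    exact kadj1 c s t
  · obtain ⟨c, rfl, _⟩ := (mem_fch _ _).1 h
    exact kadj1 c s t

lemma kd2 (p s t : F2) (h : p ∈ fpr t ∨ p ∈ fch t) : KK.dist (s, t)⁻¹ (s, p)⁻¹ = 1 := by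
  rw [SimpleGraph.dist_eq_one_iff_adj]
  rcases h with h | h
  · obtain ⟨c, rfl, _⟩ := (mem_fpr _ _).1 h
    exact kadj2 c s t
  · obtain ⟨c, rfl, _⟩ := (mem_fch _ _).1 h
    exact kadj2 c s t

/-- a special upward move has Cayley length at most 3 -/
lemma kdup (x y : Gam) (h : y ∈ FR.dup bd x) : KK.dist x⁻¹ y⁻¹ ≤ 3 := by
  unfold RT.dup at h
  split_ifs at h
  · rw [mem_product] at h
    obtain ⟨h1, h2⟩ := h
    unfold RT.gch at h2
    rw [mem_biUnion] at h2
    obtain ⟨u, hu, hu2⟩ := h2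
    have d1 := kd1 y.1 x.1 x.2 (Or.inl h1)
    have d2 := kd2 u y.1 x.2 (Or.inr hu)
    have d3 := kd2 y.2 y.1 u (Or.inr hu2)
    have t1 := kconn.dist_triangle (u := (x.1, x.2)⁻¹) (v := (y.1, x.2)⁻¹) (w := (y.1, u)⁻¹)
    have t2 := kconn.dist_triangle (u := (x.1, x.2)⁻¹) (v := (y.1, u)⁻¹) (w := (y.1, y.2)⁻¹)
    show KK.dist (x.1, x.2)⁻¹ (y.1, y.2)⁻¹ ≤ 3
    omega
  · rw [mem_product] at h
    obtain ⟨h1, h2⟩ := h
    unfold RT.gch at h1
    rw [mem_biUnion] at h1
    obtain ⟨u, hu, hu2⟩ := h1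
    have d1 := kd2 y.2 x.1 x.2 (Or.inl h2)
    have d2 := kd1 u x.1 y.2 (Or.inr hu)
    have d3 := kd1 y.1 u y.2 (Or.inr hu2)
    have t1 := kconn.dist_triangle (u := (x.1, x.2)⁻¹) (v := (x.1, y.2)⁻¹) (w := (u, y.2)⁻¹)
    have t2 := kconn.dist_triangle (u := (x.1, x.2)⁻¹) (v := (u, y.2)⁻¹) (w := (y.1, y.2)⁻¹)
    show KK.dist (x.1, x.2)⁻¹ (y.1, y.2)⁻¹ ≤ 3
    omega

lemma kadj_le (x y : Gam) (h : GG.Adj x y) : KK.dist x⁻¹ y⁻¹ ≤ 3 := by
  have h' : y ∈ FR.nbr bd x := h
  unfold RT.nbr at h'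
  simp only [mem_union] at h'
  rcases h' with h | h | h | h | h | h
  · rw [mem_product, mem_singleton] at h
    have := kd1 y.1 x.1 x.2 (Or.inr h.1)
    rw [← h.2] at this
    have e : KK.dist x⁻¹ y⁻¹ = 1 := by
      have e' : x = (x.1, y.2) := by rw [h.2]
      rw [e']; exact this
    omega
  · rw [mem_product, mem_singleton] at h
    have := kd2 y.2 x.1 x.2 (Or.inr h.2)
    have e : KK.dist x⁻¹ y⁻¹ = 1 := by
      have e' : y = (x.1, y.2) := by rw [← h.1]
      rw [e']; exact this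
    omega
  · rw [mem_product, mem_singleton] at h
    have := kd1 y.1 x.1 x.2 (Or.inl h.1)
    have e : KK.dist x⁻¹ y⁻¹ = 1 := by
      have e' : y = (y.1, x.2) := by rw [← h.2]
      rw [e']; exact this
    omega
  · rw [mem_product, mem_singleton] at h
    have := kd2 y.2 x.1 x.2 (Or.inl h.2)
    have e : KK.dist x⁻¹ y⁻¹ = 1 := by
      have e' : y = (x.1, y.2) := by rw [← h.1]
      rw [e']; exact this
    omega
  · exact kdup x y h
  · rw [SimpleGraph.dist_comm]
    exact kdup y x ((FR.dup_ddn bd y x).2 h)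

lemma dist2 (x y : Gam) : KK.dist x⁻¹ y⁻¹ ≤ 3 * GG.dist x y := by
  obtain ⟨w, hw⟩ := gconn.exists_walk_length_eq_dist x y
  rw [← hw]
  clear hw
  induction w with
  | nil => simp
  | @cons u v t h p ih =>
    have h1 := kadj_le _ _ h
    have h2 := kconn.dist_triangle (u := u⁻¹) (v := v⁻¹) (w := t⁻¹)
    rw [SimpleGraph.Walk.length_cons]
    omega

lemma closure_SS : Subgroup.closure (SS : Set Gam) = ⊤ := by
  rw [eq_top_iff]
  intro x _
  have h1 : ∀ g : F2, ((g, 1) : Gam) ∈ Subgroup.closure (SS : Set Gam) := by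
    intro g
    induction g using FreeGroup.induction_on with
    | C1 => exact Subgroup.one_mem _
    | of i =>
      apply Subgroup.subset_closure
      rw [Finset.mem_coe, mem_SS]
      exact Or.inl ⟨i, rfl⟩
    | inv_of i h =>
      have := Subgroup.inv_mem _ h
      simpa using this
    | mul g g' h h' =>
      have := Subgroup.mul_mem _ h h'
      simpa using this
  have h2 : ∀ g : F2, ((1, g) : Gam) ∈ Subgroup.closure (SS : Set Gam) := by
    intro g
    induction g using FreeGroup.induction_on with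
    | C1 => exact Subgroup.one_mem _
    | of i =>
      apply Subgroup.subset_closure
      rw [Finset.mem_coe, mem_SS]
      exact Or.inr ⟨i, rfl⟩
    | inv_of i h =>
      have := Subgroup.inv_mem _ h
      simpa using this
    | mul g g' h h' =>
      have := Subgroup.mul_mem _ h h'
      simpa using this
  have := Subgroup.mul_mem _ (h1 x.1) (h2 x.2)
  simpa using this

lemma nonam (F : Finset Gam) (_hF : F.Nonempty) :
    (1 : ℝ) * (F.card : ℝ) ≤
      (((F.biUnion (fun x => SS.image (fun s => x * s) ∪ SS.image (fun s => x * s⁻¹))) \ F).card : ℝ) := by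
  set C : Gam → Finset Gam := fun x => (fch x.1⁻¹).image (fun u => ((u⁻¹, x.2) : Gam)) with hC
  have hCcard : ∀ x, 3 ≤ (C x).card := by
    intro x
    rw [hC]
    simp only
    rw [Finset.card_image_of_injective]
    · rw [card_fch]; split_ifs <;> norm_num
    · intro u u' h
      have := (Prod.ext_iff.mp h).1
      exact inv_injective this
  have hdisj : ∀ x ∈ F, ∀ y ∈ F, x ≠ y → Disjoint (C x) (C y) := by
    intro x _ y _ hxy
    rw [Finset.disjoint_left]
    intro z hz hz'
    rw [hC] at hz hz'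
    simp only [mem_image] at hz hz'
    obtain ⟨u, hu, rfl⟩ := hz
    obtain ⟨u', hu', he⟩ := hz'
    have e1 : u' = u := inv_injective (Prod.ext_iff.mp he).1
    have e2 : y.2 = x.2 := (Prod.ext_iff.mp he).2
    subst e1
    have := FR.pr_unique x.1⁻¹ y.1⁻¹ u' ((fpr_iff _ _).2 hu) ((fpr_iff _ _).2 hu')
    exact hxy (Prod.ext (inv_injective this) e2.symm)
  have hsub : F.biUnion C ⊆
      F.biUnion (fun x => SS.image (fun s => x * s) ∪ SS.image (fun s => x * s⁻¹)) := by
    apply Finset.biUnion_mono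
    intro x _ z hz
    rw [hC] at hz
    simp only [mem_image] at hz
    obtain ⟨u, hu, rfl⟩ := hz
    obtain ⟨⟨i, b⟩, hc, _⟩ := (mem_fch _ _).1 hu
    rw [mem_union, mem_image, mem_image]
    cases b
    · left
      refine ⟨(FreeGroup.of i, 1), (mem_SS _).2 (Or.inl ⟨i, rfl⟩), ?_⟩
      rw [hc]
      unfold lm
      rw [mk_false]
      ext <;> simp
    · right
      refine ⟨(FreeGroup.of i, 1), (mem_SS _).2 (Or.inl ⟨i, rfl⟩), ?_⟩
      rw [hc]
      unfold lm
      rw [mk_true]
      ext <;> simp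
  have h1 : 3 * F.card ≤ (F.biUnion C).card := by
    rw [Finset.card_biUnion (fun x hx y hy hxy => hdisj x hx y hy hxy)]
    calc 3 * F.card = ∑ _x ∈ F, 3 := by rw [Finset.sum_const]; simp; ring
      _ ≤ ∑ x ∈ F, (C x).card := Finset.sum_le_sum (fun x _ => hCcard x)
  have h2 : (F.biUnion C).card ≤ ((F.biUnion C) \ F).card + F.card := by
    have := Finset.card_le_card_sdiff_add_card (s := F.biUnion C) (t := F)
    exact this
  have h3 : ((F.biUnion C) \ F).card ≤
      ((F.biUnion (fun x => SS.image (fun s => x * s) ∪ SS.image (fun s => x * s⁻¹))) \ F).card :=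
    Finset.card_le_card (Finset.sdiff_subset_sdiff hsub (Finset.Subset.refl F))
  rw [one_mul]
  have : F.card ≤
      ((F.biUnion (fun x => SS.image (fun s => x * s) ∪ SS.image (fun s => x * s⁻¹))) \ F).card := by
    omega
  exact_mod_cast this

end Pool.Agent.LiouvilleQI
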