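import Pool.Agent.LiouvilleQI.Liou

set_option autoImplicit false

namespace Pool.Agent.LiouvilleQI

open Finset

/-- the free group on two generators -/
abbrev F2 : Type := FreeGroup (Fin 2)

/-- letters -/
abbrev Let2 : Type := Fin 2 × Bool

/-- multiplication by a letter on the left -/
def lm (c : Let2) (t : F2) : F2 := FreeGroup.mk [c] * t

def cinv (c : Let2) : Let2 := (c.1, !c.2)

lemma cinv_cinv (c : Let2) : cinv (cinv c) = c := by
  unfold cinv; simp

lemma mk_cinv (c : Let2) : FreeGroup.mk [cinv c] = (FreeGroup.mk [c])⁻¹ := by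
  unfold cinv
  simp [FreeGroup.inv_mk, FreeGroup.invRev]

lemma lm_cinv (c : Let2) (t : F2) : lm (cinv c) (lm c t) = t := by
  unfold lm; rw [mk_cinv, inv_mul_cancel_left]

lemma toWord_lm_nil (c : Let2) (t : F2) (h : t.toWord = []) : (lm c t).toWord = [c] := by
  unfold lm
  rw [FreeGroup.toWord_mul, h]
  simp [FreeGroup.toWord_mk]

lemma toWord_lm_cons (c d : Let2) (w : List Let2) (t : F2) (h : t.toWord = d :: w) :
    (lm c t).toWord = if c = cinv d then w else c :: d :: w := by
  unfold lm
  have hr : FreeGroup.reduce (d :: w) = d :: w := by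
    rw [← h]; exact FreeGroup.reduce_toWord t
  rw [FreeGroup.toWord_mul, FreeGroup.toWord_mk, FreeGroup.reduce_singleton, h]
  rw [List.singleton_append, FreeGroup.reduce.cons, hr]
  unfold cinv
  simp only
  by_cases hc : c = (d.1, !d.2)
  · rw [if_pos hc, if_pos ⟨by rw [hc], by rw [hc]⟩]
  · rw [if_neg hc, if_neg]
    rintro ⟨h1, h2⟩
    exact hc (Prod.ext h1 h2)

lemma norm_lm_nil (c : Let2) (t : F2) (h : t.toWord = []) : (lm c t).norm = t.norm + 1 := by
  unfold FreeGroup.norm
  rw [toWord_lm_nil c t h, h]; simp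

lemma norm_lm_cons (c d : Let2) (w : List Let2) (t : F2) (h : t.toWord = d :: w) :
    (c = cinv d ∧ (lm c t).norm + 1 = t.norm) ∨ (c ≠ cinv d ∧ (lm c t).norm = t.norm + 1) := by
  unfold FreeGroup.norm
  rw [toWord_lm_cons c d w t h, h]
  split_ifs with hc
  · left; exact ⟨hc, by simp⟩
  · right; exact ⟨hc, by simp⟩

lemma norm_lm (c : Let2) (t : F2) :
    (lm c t).norm = t.norm + 1 ∨ (lm c t).norm + 1 = t.norm := by
  rcases hw : t.toWord with _ | ⟨d, w⟩
  · exact Or.inl (norm_lm_nil c t hw)
  · rcases norm_lm_cons c d w t hw with h | h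
    · exact Or.inr h.2
    · exact Or.inl h.2

lemma lm_inj (t : F2) : Function.Injective (fun c : Let2 => lm c t) := by
  intro c c' h
  have h1 : FreeGroup.mk [c] = FreeGroup.mk [c'] := mul_right_cancel h
  have h2 := congrArg FreeGroup.toWord h1
  simpa [FreeGroup.toWord_mk, FreeGroup.reduce_singleton] using h2

def fch (t : F2) : Finset F2 :=
  (univ.filter (fun c : Let2 => (lm c t).norm = t.norm + 1)).image (fun c => lm c t)

def fpr (t : F2) : Finset F2 :=
  (univ.filter (fun c : Let2 => (lm c t).norm + 1 = t.norm)).image (fun c => lm c t)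

lemma mem_fch (s t : F2) : s ∈ fch t ↔ ∃ c : Let2, s = lm c t ∧ s.norm = t.norm + 1 := by
  unfold fch
  rw [mem_image]
  constructor
  · rintro ⟨c, hc, rfl⟩
    rw [mem_filter] at hc
    exact ⟨c, rfl, hc.2⟩
  · rintro ⟨c, rfl, h⟩
    exact ⟨c, by rw [mem_filter]; exact ⟨mem_univ _, h⟩, rfl⟩

lemma mem_fpr (s t : F2) : s ∈ fpr t ↔ ∃ c : Let2, s = lm c t ∧ s.norm + 1 = t.norm := by
  unfold fpr
  rw [mem_image]
  constructor
  · rintro ⟨c, hc, rfl⟩
    rw [mem_filter] at hc
    exact ⟨c, rfl, hc.2⟩
  · rintro ⟨c, rfl, h⟩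
    exact ⟨c, by rw [mem_filter]; exact ⟨mem_univ _, h⟩, rfl⟩

lemma fpr_iff (s t : F2) : s ∈ fpr t ↔ t ∈ fch s := by
  rw [mem_fpr, mem_fch]
  constructor
  · rintro ⟨c, rfl, h⟩
    exact ⟨cinv c, (lm_cinv c t).symm, h.symm⟩
  · rintro ⟨c, rfl, h⟩
    exact ⟨cinv c, (lm_cinv c s).symm, h.symm⟩

lemma toWord_nil_of_norm (t : F2) (h : t.norm = 0) : t.toWord = [] := by
  unfold FreeGroup.norm at h
  exact List.length_eq_zero_iff.mp h

lemma card_fch (t : F2) : (fch t).card = if t.norm = 0 then 4 else 3 := by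
  unfold fch
  rw [Finset.card_image_of_injective _ (lm_inj t)]
  split_ifs with h0
  · have hw := toWord_nil_of_norm t h0
    have : (univ.filter (fun c : Let2 => (lm c t).norm = t.norm + 1)) = univ := by
      apply Finset.filter_true_of_mem
      intro c _
      exact norm_lm_nil c t hw
    rw [this]; rfl
  · rcases hw : t.toWord with _ | ⟨d, w⟩
    · exact absurd (by unfold FreeGroup.norm; rw [hw]; rfl) h0
    · have : (univ.filter (fun c : Let2 => (lm c t).norm = t.norm + 1)) = univ.erase (cinv d) := by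
        ext c
        rw [mem_filter, mem_erase]
        have := norm_lm_cons c d w t hw
        constructor
        · rintro ⟨_, h⟩
          refine ⟨?_, mem_univ _⟩
          rcases this with h' | h'
          · omega
          · exact h'.1
        · rintro ⟨h, _⟩
          refine ⟨mem_univ _, ?_⟩
          rcases this with h' | h'
          · exact absurd h'.1 h
          · exact h'.2
      rw [this, Finset.card_erase_of_mem (mem_univ _)]; rfl

lemma card_fpr (t : F2) : (fpr t).card = if t.norm = 0 then 0 else 1 := by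
  unfold fpr
  rw [Finset.card_image_of_injective _ (lm_inj t)]
  split_ifs with h0
  · rw [Finset.card_eq_zero]
    apply Finset.filter_false_of_mem
    intro c _
    omega
  · rcases hw : t.toWord with _ | ⟨d, w⟩
    · exact absurd (by unfold FreeGroup.norm; rw [hw]; rfl) h0
    · have : (univ.filter (fun c : Let2 => (lm c t).norm + 1 = t.norm)) = {cinv d} := by
        ext c
        rw [mem_filter, mem_singleton]
        have := norm_lm_cons c d w t hw
        constructor
        · rintro ⟨_, h⟩
          rcases this with h' | h'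
          · exact h'.1
          · omega
        · intro h
          refine ⟨mem_univ _, ?_⟩
          rcases this with h' | h'
          · exact h'.2
          · exact absurd h h'.1
      rw [this]; rfl

def fsph : ℕ → Finset F2
  | 0 => {1}
  | n + 1 => (fsph n).biUnion fch

lemma mem_fsph (n : ℕ) (x : F2) : x ∈ fsph n ↔ x.norm = n := by
  induction n generalizing x with
  | zero =>
    unfold fsph
    rw [mem_singleton, FreeGroup.norm_eq_zero]
  | succ n ih =>
    unfold fsph
    rw [mem_biUnion]
    constructor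
    · rintro ⟨s, hs, hx⟩
      rw [ih] at hs
      rw [mem_fch] at hx
      obtain ⟨c, _, h⟩ := hx
      omega
    · intro hx
      have : 0 < (fpr x).card := by rw [card_fpr, hx]; simp
      obtain ⟨p, hp⟩ := Finset.card_pos.mp this
      refine ⟨p, ?_, (fpr_iff _ _).1 hp⟩
      rw [ih]
      rw [mem_fpr] at hp
      obtain ⟨c, _, h⟩ := hp
      omega

/-- the rooted tree of the free group -/
def FR : RT F2 where
  lev := FreeGroup.norm
  ch := fch
  pr := fpr
  sph := fsph
  root := 1
  mem_pr := fpr_iff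
  lev_ch := fun s t h => by
    rw [mem_fch] at h
    obtain ⟨_, _, h⟩ := h
    exact h
  card_ch := card_fch
  card_pr := card_fpr
  mem_sph := mem_fsph
  lev_root := FreeGroup.norm_one
  eq_root := fun x h => FreeGroup.norm_eq_zero.mp h

/-- the band function -/
def bd (r : ℕ) : Bool := decide (Nat.log 16 r % 2 = 0)

lemma bd_true (N : ℕ) : ∃ a, N ≤ a ∧ ∀ r, a ≤ r → r < 16 * a → bd r = true := by
  refine ⟨16 ^ (2 * N), ?_, ?_⟩
  · calc N ≤ 2 * N := by omega
      _ ≤ 16 ^ (2 * N) := (Nat.lt_pow_self (by norm_num)).le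
  · intro r h1 h2
    have hpos : 0 < 16 ^ (2 * N) := by positivity
    have hlog : Nat.log 16 r = 2 * N := by
      rw [Nat.log_eq_iff (Or.inr ⟨by norm_num, by omega⟩)]
      exact ⟨h1, by rw [pow_succ]; omega⟩
    unfold bd
    rw [hlog]; simp

lemma bd_false (N : ℕ) : ∃ a, N ≤ a ∧ ∀ r, a ≤ r → r < 16 * a → bd r = false := by
  refine ⟨16 ^ (2 * N + 1), ?_, ?_⟩
  · calc N ≤ 2 * N + 1 := by omega
      _ ≤ 16 ^ (2 * N + 1) := (Nat.lt_pow_self (by norm_num)).le
  · intro r h1 h2
    have hpos : 0 < 16 ^ (2 * N + 1) := by positivity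
    have hlog : Nat.log 16 r = 2 * N + 1 := by
      rw [Nat.log_eq_iff (Or.inr ⟨by norm_num, by omega⟩)]
      exact ⟨h1, by rw [pow_succ]; omega⟩
    unfold bd
    rw [hlog]
    have : (2 * N + 1) % 2 = 1 := by omega
    rw [this]; rfl

end Pool.Agent.LiouvilleQI
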