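import Pool.Agent.LiouvilleQI.Radial

set_option autoImplicit false

namespace Pool.Agent.LiouvilleQI

open Finset

variable {T : Type} [DecidableEq T] (R : RT T) (τ : ℕ → Bool)

namespace RT

/-- harmonic functions -/
def Har (h : T × T → ℝ) : Prop :=
  ∀ x, ((R.nbr τ x).card : ℝ) * h x = ∑ y ∈ R.nbr τ x, h y

/-- average in the first coordinate -/
noncomputable def av1 (h : T × T → ℝ) (x : T × T) : ℝ := R.avg (fun s => h (s, x.2)) x.1

lemma avg_congr (f g : T → ℝ) (t : T) (h : ∀ s, R.lev s = R.lev t → f s = g s) :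
    R.avg f t = R.avg g t := by
  unfold avg
  rw [Finset.sum_congr rfl (fun s hs => h s ((R.mem_sph _ _).1 hs))]

lemma avg_add (f g : T → ℝ) (t : T) :
    R.avg (fun s => f s + g s) t = R.avg f t + R.avg g t := by
  unfold avg
  rw [Finset.sum_add_distrib, add_div]

lemma avg_sum (S : Finset T) (g : T → T → ℝ) (t : T) :
    R.avg (fun s => ∑ b ∈ S, g s b) t = ∑ b ∈ S, R.avg (fun s => g s b) t := by
  unfold avg
  rw [Finset.sum_comm, Finset.sum_div]

lemma avg_mul_left (c : ℝ) (f : T → ℝ) (t : T) :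
    R.avg (fun s => c * f s) t = c * R.avg f t := by
  unfold avg
  rw [← Finset.mul_sum, mul_div_assoc]

lemma avg_ite (p : Prop) [Decidable p] (f g : T → ℝ) (t : T) :
    R.avg (fun s => if p then f s else g s) t = if p then R.avg f t else R.avg g t := by
  split_ifs <;> rfl

lemma comm_ch (f : T → ℝ) (t : T) :
    ∑ x ∈ R.ch t, R.avg f x = R.avg (fun s => ∑ x ∈ R.ch s, f x) t :=
  R.avg_comm R.ch R.pr 1 (fun n => if n = 0 then 4 else 3) (fun n => if n = 0 then 0 else 1)
    (fun s t => R.mem_pr s t) (fun s t h => by rw [R.lev_ch s t h]; push_cast; ring)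
    (fun t => R.card_ch t) (fun t => R.card_pr t) f t

lemma comm_pr (f : T → ℝ) (t : T) :
    ∑ x ∈ R.pr t, R.avg f x = R.avg (fun s => ∑ x ∈ R.pr s, f x) t :=
  R.avg_comm R.pr R.ch (-1) (fun n => if n = 0 then 0 else 1) (fun n => if n = 0 then 4 else 3)
    (fun s t => (R.mem_pr t s).symm) (fun s t h => by rw [← R.lev_pr s t h]; push_cast; ring)
    (fun t => R.card_pr t) (fun t => R.card_ch t) f t

lemma comm_gch (f : T → ℝ) (t : T) :
    ∑ x ∈ R.gch t, R.avg f x = R.avg (fun s => ∑ x ∈ R.gch s, f x) t :=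
  R.avg_comm R.gch R.gpr 2 (fun n => (if n = 0 then 4 else 3) * 3) (fun n => if n ≤ 1 then 0 else 1)
    (fun s t => R.mem_gpr s t) (fun s t h => by rw [R.lev_gch s t h]; push_cast; ring)
    (fun t => R.card_gch t) (fun t => R.card_gpr t) f t

lemma comm_gpr (f : T → ℝ) (t : T) :
    ∑ x ∈ R.gpr t, R.avg f x = R.avg (fun s => ∑ x ∈ R.gpr s, f x) t :=
  R.avg_comm R.gpr R.gch (-2) (fun n => if n ≤ 1 then 0 else 1) (fun n => (if n = 0 then 4 else 3) * 3)
    (fun s t => (R.mem_gpr t s).symm) (fun s t h => by rw [← R.lev_gpr s t h]; push_cast; ring)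
    (fun t => R.card_gpr t) (fun t => R.card_gch t) f t

lemma nsum_av1 (h : T × T → ℝ) (x : T × T) :
    R.nsum τ (R.av1 h) x = R.av1 (R.nsum τ h) x := by
  have hR : R.av1 (R.nsum τ h) x = R.avg (fun s =>
      ∑ c ∈ R.ch s, h (c, x.2) + (∑ c ∈ R.ch x.2, h (s, c) + (∑ c ∈ R.pr s, h (c, x.2)
      + (∑ c ∈ R.pr x.2, h (s, c) +
      ((if τ (R.rk x) = true then ∑ a ∈ R.pr s, ∑ b ∈ R.gch x.2, h (a, b)
        else ∑ a ∈ R.gch s, ∑ b ∈ R.pr x.2, h (a, b)) +
       (if τ (R.rk x - 1) = true then ∑ a ∈ R.ch s, ∑ b ∈ R.gpr x.2, h (a, b)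
        else ∑ a ∈ R.gpr s, ∑ b ∈ R.ch x.2, h (a, b))))))) x.1 := by
    unfold av1
    apply R.avg_congr
    intro s hs
    have : R.rk (s, x.2) = R.rk x := by unfold rk; simp [hs]
    unfold nsum
    simp only [this]
  rw [hR]
  simp only [avg_add, avg_ite]
  unfold nsum av1
  congr 1
  · exact R.comm_ch (fun s => h (s, x.2)) x.1
  congr 1
  · rw [R.avg_sum]
  congr 1
  · exact R.comm_pr (fun s => h (s, x.2)) x.1
  congr 1
  · rw [R.avg_sum]
  congr 1
  · split_ifs
    · rw [← R.comm_pr]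
      apply Finset.sum_congr rfl
      intro a _
      rw [R.avg_sum]
    · rw [← R.comm_gch]
      apply Finset.sum_congr rfl
      intro a _
      rw [R.avg_sum]
  · split_ifs
    · rw [← R.comm_ch]
      apply Finset.sum_congr rfl
      intro a _
      rw [R.avg_sum]
    · rw [← R.comm_gpr]
      apply Finset.sum_congr rfl
      intro a _
      rw [R.avg_sum]

variable {R τ}

lemma Har.av1 {h : T × T → ℝ} (hh : R.Har τ h) : R.Har τ (R.av1 h) := by
  intro x
  rw [R.sum_nbr, R.nsum_av1]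
  show _ = R.avg _ _
  rw [R.avg_congr (fun s => R.nsum τ h (s, x.2)) (fun s => ((R.nbr τ x).card : ℝ) * h (s, x.2)),
    R.avg_mul_left]
  · rfl
  · intro s hs
    rw [← R.sum_nbr, ← hh (s, x.2), R.card_nbr, R.card_nbr]
    simp only [hs]

lemma Har.sub {h g : T × T → ℝ} (hh : R.Har τ h) (hg : R.Har τ g) :
    R.Har τ (fun x => h x - g x) := by
  intro x
  rw [Finset.sum_sub_distrib, ← hh x, ← hg x]; ring

lemma Har.neg {h : T × T → ℝ} (hh : R.Har τ h) : R.Har τ (fun x => - h x) := by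
  intro x
  rw [Finset.sum_neg_distrib, ← hh x]; ring

lemma har_const (c : ℝ) : R.Har τ (fun _ => c) := by
  intro x
  rw [Finset.sum_const, nsmul_eq_mul]

/-- minimum principle in a ball -/
lemma Har.min_ball {v : T × T → ℝ} (hv : R.Har τ v) (b : ℕ) (c : ℝ)
    (hb : ∀ x, R.rk x = b → c ≤ v x) : ∀ x, R.rk x ≤ b → c ≤ v x := by
  have := R.max_principle τ (fun x => c - v x) b (by
    intro x hx
    rcases Nat.lt_or_ge (R.rk x) b with h | h
    · right
      refine ⟨h, ?_⟩
      have := ((har_const c).sub hv) x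
      exact this.le
    · left
      have := hb x (by omega)
      simpa using this)
  intro x hx
  have := this x hx
  simpa using this

/-- Harnack along a neighbour -/
lemma Har.harnack {v : T × T → ℝ} (hv : R.Har τ v) (h0 : ∀ x, 0 ≤ v x) (x y : T × T)
    (hy : y ∈ R.nbr τ x) : v y ≤ 60 * v x := by
  have h1 : v y ≤ ∑ z ∈ R.nbr τ x, v z := Finset.single_le_sum (fun z _ => h0 z) hy
  rw [← hv x] at h1
  have := R.card_nbr_le τ x
  nlinarith [h0 x]

lemma pr_mem_nbr (x : T × T) (p : T) (hp : p ∈ R.pr x.1) : (p, x.2) ∈ R.nbr τ x := by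
  unfold nbr
  simp only [mem_union]
  refine Or.inr (Or.inr (Or.inl ?_))
  rw [mem_product]
  exact ⟨hp, by simp⟩

lemma ch_mem_nbr (x : T × T) (c : T) (hc : c ∈ R.ch x.2) : (x.1, c) ∈ R.nbr τ x := by
  unfold nbr
  simp only [mem_union]
  refine Or.inr (Or.inl ?_)
  rw [mem_product]
  exact ⟨by simp, hc⟩

lemma exists_pr (t : T) (n : ℕ) (h : R.lev t = n + 1) : ∃ p ∈ R.pr t, R.lev p = n := by
  have hc : 0 < (R.pr t).card := by rw [R.card_pr, h]; simp
  obtain ⟨p, hp⟩ := Finset.card_pos.mp hc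
  exact ⟨p, hp, by have := R.lev_pr p t hp; omega⟩

lemma exists_ch (t : T) : ∃ c ∈ R.ch t, R.lev c = R.lev t + 1 := by
  have hc : 0 < (R.ch t).card := by rw [R.card_ch]; split_ifs <;> norm_num
  obtain ⟨c, hc⟩ := Finset.card_pos.mp hc
  exact ⟨c, hc, R.lev_ch c t hc⟩

/-- the key barrier lemma -/
lemma key (a b : ℕ) (ha : 2 ≤ a) (hb : 6 * (a + 21) ≤ b)
    (hτ : ∀ r, a ≤ r → r < b → τ r = true)
    (v : T × T → ℝ) (hv : R.Har τ v) (h0 : ∀ x, 0 ≤ v x) (η : ℝ) (hη : 0 ≤ η)
    (hbd : ∀ x, R.rk x = b → R.lev x.1 ≤ 17 → η ≤ v x) :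
    ∀ x, R.rk x = a + 21 → η / 2 ≤ v x := by
  have hB : (0 : ℝ) < (21/20 : ℝ)^b := by positivity
  have hA : (0 : ℝ) < (6/5 : ℝ)^a := by positivity
  -- lower bounds for psi
  have hpsi0 : ∀ l m : ℕ, l + m ≤ b → 44 * ((6/5 : ℝ)^a / (6/5 : ℝ)^(l+m)) ≤ psi a b l m := by
    intro l m hlm
    unfold psi
    have h1 : (21/20 : ℝ)^(l+m) / (21/20 : ℝ)^b ≤ 1 := by
      rw [div_le_one hB]
      exact pow_le_pow_right₀ (by norm_num) hlm
    have h2 : (0 : ℝ) < (21/20 : ℝ)^(l+m) / (21/20 : ℝ)^b := by positivity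
    have h3 : (1 : ℝ) ≤ (5/4 : ℝ)^l := one_le_pow₀ (by norm_num)
    nlinarith
  have hpsipos : ∀ l m : ℕ, l + m ≤ b → 0 ≤ psi a b l m := by
    intro l m hlm
    refine le_trans ?_ (hpsi0 l m hlm)
    positivity
  have hpsia : ∀ l m : ℕ, l + m ≤ a → 44 ≤ psi a b l m := by
    intro l m hlm
    refine le_trans ?_ (hpsi0 l m (by omega))
    have : (1 : ℝ) ≤ (6/5 : ℝ)^a / (6/5 : ℝ)^(l+m) := by
      rw [one_le_div (by positivity)]
      exact pow_le_pow_right₀ (by norm_num) hlm
    linarith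
  have hpsib : ∀ l m : ℕ, l + m = b → 18 ≤ l → 44 ≤ psi a b l m := by
    intro l m hlm hl
    unfold psi
    rw [hlm, div_self hB.ne']
    have h3 : (5/4 : ℝ)^18 ≤ (5/4 : ℝ)^l := pow_le_pow_right₀ (by norm_num) hl
    have h4 : (44 : ℝ) ≤ (5/4 : ℝ)^18 := by norm_num
    have h5 : (0 : ℝ) < (6/5 : ℝ)^a / (6/5 : ℝ)^b := by positivity
    linarith
  have hmax := R.max_principle τ
    (fun x => η * (1 - psi a b (R.lev x.1) (R.lev x.2) / 44) - v x) b (by
    intro x hx
    rcases Nat.lt_or_ge a (R.rk x) with h | h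
    · rcases Nat.lt_or_ge (R.rk x) b with h' | h'
      · right
        refine ⟨h', ?_⟩
        have e1 : ∑ y ∈ R.nbr τ x, (η * (1 - psi a b (R.lev y.1) (R.lev y.2) / 44) - v y)
            = η * (((R.nbr τ x).card : ℝ) - (∑ y ∈ R.nbr τ x, psi a b (R.lev y.1) (R.lev y.2)) / 44)
              - ∑ y ∈ R.nbr τ x, v y := by
          rw [Finset.sum_sub_distrib, ← Finset.mul_sum, Finset.sum_sub_distrib, ← Finset.sum_div]
          simp
        rw [e1, ← hv x]
        have e2 : ∑ y ∈ R.nbr τ x, psi a b (R.lev y.1) (R.lev y.2)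
            ≤ ((R.nbr τ x).card : ℝ) * psi a b (R.lev x.1) (R.lev x.2) := by
          rw [R.sum_nbr, R.nsum_radial, R.card_nbr]
          unfold rk at h h'
          apply psi_super
          · omega
          · exact hτ _ (by omega) (by omega)
          · exact hτ _ (by omega) (by omega)
        have e3 := mul_le_mul_of_nonneg_left e2 hη
        nlinarith
      · left
        have hxb : R.rk x = b := by omega
        have hxb' : R.lev x.1 + R.lev x.2 = b := hxb
        rcases Nat.lt_or_ge 17 (R.lev x.1) with hl | hl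
        · have := hpsib _ _ hxb' (by omega)
          have := h0 x
          show η * (1 - psi a b (R.lev x.1) (R.lev x.2) / 44) - v x ≤ 0
          nlinarith
        · have := hpsipos _ _ hxb'.le
          have := hbd x hxb hl
          show η * (1 - psi a b (R.lev x.1) (R.lev x.2) / 44) - v x ≤ 0
          nlinarith
    · left
      have hxa : R.lev x.1 + R.lev x.2 ≤ a := h
      have := hpsia _ _ hxa
      have := h0 x
      show η * (1 - psi a b (R.lev x.1) (R.lev x.2) / 44) - v x ≤ 0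
      nlinarith)
  intro x hx
  have h1 := hmax x (by omega)
  have h2 : psi a b (R.lev x.1) (R.lev x.2) ≤ 22 := by
    unfold psi
    have hx' : R.lev x.1 + R.lev x.2 = a + 21 := hx
    rw [hx']
    have h3 : (6/5 : ℝ)^a / (6/5 : ℝ)^(a+21) = 1 / (6/5)^21 := by
      rw [pow_add]; field_simp
    have h4 : (44 : ℝ) * (1 / (6/5)^21) ≤ 1 := by norm_num
    rw [h3]
    have h5 : (5/4 : ℝ)^(R.lev x.1) ≤ (5/4 : ℝ)^(a+21) :=
      pow_le_pow_right₀ (by norm_num) (by omega)
    have h6 : (5/4 : ℝ)^(a+21) ≤ ((21/20 : ℝ)^5)^(a+21) :=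
      pow_le_pow_left₀ (by norm_num) (by norm_num) _
    have h7 : ((21/20 : ℝ)^5)^(a+21) * (21/20 : ℝ)^(a+21) ≤ (21/20 : ℝ)^b := by
      rw [← pow_mul, ← pow_add]
      exact pow_le_pow_right₀ (by norm_num) (by omega)
    have h8 : (0 : ℝ) < (21/20 : ℝ)^(a+21) := by positivity
    have h9 : (5/4 : ℝ)^(R.lev x.1) * ((21/20 : ℝ)^(a+21) / (21/20 : ℝ)^b) ≤ 1 := by
      rw [mul_div_assoc', div_le_one hB]
      refine le_trans ?_ h7
      exact mul_le_mul_of_nonneg_right (h5.trans h6) h8.le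
    have h10 : (0 : ℝ) < (21/20 : ℝ)^(a+21) / (21/20 : ℝ)^b := by positivity
    nlinarith
  have h3 : η * (1 - psi a b (R.lev x.1) (R.lev x.2) / 44) - v x ≤ 0 := h1
  nlinarith

/-- a nonnegative harmonic function which is at least `M` on the root fibre is bounded below -/
lemma lower_of_root {v : T × T → ℝ} (hv : R.Har τ v) (h0 : ∀ x, 0 ≤ v x) (M : ℝ)
    (hM : ∀ x, R.lev x.1 = 0 → M ≤ v x) :
    ∀ n : ℕ, ∀ x, R.lev x.1 = n → M / 60 ^ n ≤ v x := by
  intro n
  induction n with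
  | zero => intro x hx; simpa using hM x hx
  | succ n ih =>
    intro x hx
    obtain ⟨p, hp, hpl⟩ := exists_pr (R := R) x.1 n hx
    have h1 := ih (p, x.2) hpl
    have h2 := hv.harnack h0 x (p, x.2) (pr_mem_nbr x p hp)
    rw [pow_succ]
    rw [← div_div, div_le_iff₀ (by norm_num)]
    linarith

variable (hτ : ∀ N : ℕ, ∃ a, N ≤ a ∧ ∀ r, a ≤ r → r < 16 * a → τ r = true)

include hτ in
/-- Lower bound propagates everywhere -/
lemma lower_everywhere {v : T × T → ℝ} (hv : R.Har τ v) (h0 : ∀ x, 0 ≤ v x) (η : ℝ) (hη : 0 ≤ η)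
    (x : T × T)
    (hbd : ∀ b : ℕ, ∀ y, R.rk y = b → R.lev y.1 ≤ 17 → η ≤ v y) : η / 2 ≤ v x := by
  obtain ⟨a, haN, ha⟩ := hτ (R.rk x + 21)
  have hk := key (R := R) (τ := τ) a (16 * a) (by omega) (by omega) ha v hv h0 η hη (hbd (16 * a))
  exact hv.min_ball (a + 21) (η / 2) hk x (by omega)

include hτ in
lemma zero_step {u : T × T → ℝ} (hu : R.Har τ u) (h0 : ∀ x, R.lev x.1 = 0 → u x = 0)
    (M : ℝ) (hM0 : 0 ≤ M) (hM : ∀ x, |u x| ≤ M) (x : T × T) :
    |u x| ≤ (1 - 1 / (2 * 60 ^ 17)) * M := by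
  have main : ∀ w : T × T → ℝ, R.Har τ w → (∀ x, R.lev x.1 = 0 → w x = 0) →
      (∀ x, |w x| ≤ M) → ∀ x, w x ≤ (1 - 1 / (2 * 60 ^ 17)) * M := by
    intro w hw hw0 hwM x
    have hv : R.Har τ (fun x => M - w x) := (har_const M).sub hw
    have hv0 : ∀ x, 0 ≤ (fun x => M - w x) x := by
      intro y
      have := (abs_le.mp (hwM y)).2
      show 0 ≤ M - w y
      linarith
    have h1 : ∀ b : ℕ, ∀ y, R.rk y = b → R.lev y.1 ≤ 17 → M / 60 ^ 17 ≤ M - w y := by
      intro b y _ hy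
      have := lower_of_root hv hv0 M (by intro z hz; rw [hw0 z hz]; simp) (R.lev y.1) y rfl
      refine le_trans ?_ this
      apply div_le_div_of_nonneg_left hM0 (by positivity)
      exact pow_le_pow_right₀ (by norm_num) hy
    have := lower_everywhere hτ hv hv0 (M / 60 ^ 17) (by positivity) x h1
    have h2 : M / 60 ^ 17 / 2 ≤ M - w x := this
    have h3 : (1 - 1 / (2 * 60 ^ 17)) * M = M - M / 60 ^ 17 / 2 := by ring
    linarith
  rw [abs_le]
  constructor
  · have := main (fun x => - u x) hu.neg (by intro y hy; simp [h0 y hy])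
      (by intro y; rw [abs_neg]; exact hM y) x
    linarith
  · exact main u hu h0 hM x

include hτ in
lemma zero_of_root {u : T × T → ℝ} (hu : R.Har τ u) (h0 : ∀ x, R.lev x.1 = 0 → u x = 0)
    (M : ℝ) (hM : ∀ x, |u x| ≤ M) (x : T × T) : u x = 0 := by
  have hM0 : 0 ≤ M := le_trans (abs_nonneg _) (hM x)
  have hit : ∀ n : ℕ, ∀ y, |u y| ≤ (1 - 1 / (2 * 60 ^ 17)) ^ n * M := by
    intro n
    induction n with
    | zero => intro y; simpa using hM y
    | succ n ih =>
      intro y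
      have := zero_step hτ hu h0 ((1 - 1 / (2 * 60 ^ 17)) ^ n * M) (by
        apply mul_nonneg _ hM0
        apply pow_nonneg
        norm_num) ih y
      rw [pow_succ]
      calc |u y| ≤ _ := this
        _ = _ := by ring
  have hlim : Filter.Tendsto (fun n : ℕ => (1 - 1 / (2 * 60 ^ 17) : ℝ) ^ n * M)
      Filter.atTop (nhds 0) := by
    have := (tendsto_pow_atTop_nhds_zero_of_lt_one (r := (1 - 1 / (2 * 60 ^ 17) : ℝ))
      (by norm_num) (by norm_num)).mul_const M
    simpa using this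
  have : |u x| ≤ 0 := ge_of_tendsto' hlim (fun n => hit n x)
  exact abs_nonpos_iff.mp this

include hτ in
lemma eq_av1 {h : T × T → ℝ} (hh : R.Har τ h) (M : ℝ) (hM : ∀ x, |h x| ≤ M) (x : T × T) :
    h x = R.av1 h x := by
  have hM' : ∀ x, |R.av1 h x| ≤ M := by
    intro x
    have hp := R.sph_card_pos x.1
    unfold av1 avg
    rw [abs_div, abs_of_pos hp, div_le_iff₀ hp]
    calc |∑ s ∈ R.sph (R.lev x.1), h (s, x.2)|
        ≤ ∑ s ∈ R.sph (R.lev x.1), |h (s, x.2)| := Finset.abs_sum_le_sum_abs _ _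
      _ ≤ ∑ _s ∈ R.sph (R.lev x.1), M := Finset.sum_le_sum (fun s _ => hM _)
      _ = M * ((R.sph (R.lev x.1)).card : ℝ) := by rw [Finset.sum_const, nsmul_eq_mul]; ring
  have := zero_of_root hτ (u := fun x => h x - R.av1 h x) (hh.sub hh.av1) (by
    intro y hy
    show h y - R.avg _ _ = 0
    rw [R.avg_root _ _ hy]
    simp) (M + M) (by
    intro y
    exact (abs_sub _ _).trans (add_le_add (hM y) (hM' y))) x
  linarith

include hτ in
lemma radial1 {h : T × T → ℝ} (hh : R.Har τ h) (M : ℝ) (hM : ∀ x, |h x| ≤ M) (s s' t : T)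
    (hs : R.lev s = R.lev s') : h (s, t) = h (s', t) := by
  rw [eq_av1 hτ hh M hM (s, t), eq_av1 hτ hh M hM (s', t)]
  unfold av1 avg
  simp only [hs]

lemma har_swap {h : T × T → ℝ} (hh : R.Har τ h) : R.Har (fun n => !τ n) (fun x => h x.swap) := by
  have key : ∀ g : T × T → ℝ, ∀ x, ∑ y ∈ R.nbr (fun n => !τ n) x, g y.swap
      = ∑ y ∈ R.nbr τ x.swap, g y := by
    intro g x
    rw [R.sum_nbr, R.sum_nbr]
    unfold nsum
    have hrk : R.rk x.swap = R.rk x := by unfold rk; simp [add_comm]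
    rw [hrk]
    simp only [Prod.fst_swap, Prod.snd_swap, Prod.swap_prod_mk]
    have e1 : (if (!τ (R.rk x)) = true then ∑ a ∈ R.pr x.1, ∑ b ∈ R.gch x.2, g (b, a)
        else ∑ a ∈ R.gch x.1, ∑ b ∈ R.pr x.2, g (b, a))
        = (if τ (R.rk x) = true then ∑ a ∈ R.pr x.2, ∑ b ∈ R.gch x.1, g (a, b)
        else ∑ a ∈ R.gch x.2, ∑ b ∈ R.pr x.1, g (a, b)) := by
      cases τ (R.rk x)
      · simp only [Bool.not_false, if_true, Bool.false_eq_true, if_false]
        exact Finset.sum_comm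
      · simp only [Bool.not_true, if_true, Bool.false_eq_true, if_false]
        exact Finset.sum_comm
    have e2 : (if (!τ (R.rk x - 1)) = true then ∑ a ∈ R.ch x.1, ∑ b ∈ R.gpr x.2, g (b, a)
        else ∑ a ∈ R.gpr x.1, ∑ b ∈ R.ch x.2, g (b, a))
        = (if τ (R.rk x - 1) = true then ∑ a ∈ R.ch x.2, ∑ b ∈ R.gpr x.1, g (a, b)
        else ∑ a ∈ R.gpr x.2, ∑ b ∈ R.ch x.1, g (a, b)) := by
      cases τ (R.rk x - 1)
      · simp only [Bool.not_false, if_true, Bool.false_eq_true, if_false]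
        exact Finset.sum_comm
      · simp only [Bool.not_true, if_true, Bool.false_eq_true, if_false]
        exact Finset.sum_comm
    rw [e1, e2]
    ring
  intro x
  rw [key h x, ← hh x.swap]
  congr 1
  have := key (fun _ => 1) x
  simpa using this

include hτ in
/-- A bounded harmonic function which is radial is constant. -/
lemma const_of_radial {h : T × T → ℝ} (hh : R.Har τ h) (M : ℝ) (hM : ∀ x, |h x| ≤ M)
    (hrad : ∀ x y : T × T, R.lev x.1 = R.lev y.1 → R.lev x.2 = R.lev y.2 → h x = h y)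
    (x y : T × T) : h x = h y := by
  -- Harnack chains for radial functions
  have chain : ∀ v : T × T → ℝ, R.Har τ v → (∀ x, 0 ≤ v x) →
      (∀ x y : T × T, R.lev x.1 = R.lev y.1 → R.lev x.2 = R.lev y.2 → v x = v y) →
      ∀ z : T × T, R.lev z.1 = 0 → ∀ x : T × T, R.rk x = R.rk z → R.lev x.1 ≤ 17 →
      v z / 60 ^ 34 ≤ v x := by
    intro v hv hv0 hvr z hz
    -- going up in the second coordinate along the root fibre
    have up : ∀ j : ℕ, ∀ y : T × T, R.lev y.1 = 0 → R.lev y.2 + j = R.lev z.2 →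
        v z / 60 ^ j ≤ v y := by
      intro j
      induction j with
      | zero =>
        intro y hy1 hy2
        rw [hvr z y (by omega) (by omega)]; simp
      | succ j ih =>
        intro y hy1 hy2
        obtain ⟨c, hc, hcl⟩ := exists_ch (R := R) y.2
        have h1 := ih (y.1, c) hy1 (by simp only [hcl]; omega)
        have h2 := hv.harnack hv0 y (y.1, c) (ch_mem_nbr y c hc)
        rw [pow_succ, ← div_div, div_le_iff₀ (by norm_num)]
        linarith
    have down : ∀ n : ℕ, ∀ j : ℕ, ∀ x : T × T, R.lev x.1 = n → R.lev x.2 + j = R.lev z.2 →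
        v z / 60 ^ (j + n) ≤ v x := by
      intro n
      induction n with
      | zero => intro j x hx1 hx2; exact up j x hx1 hx2
      | succ n ih =>
        intro j x hx1 hx2
        obtain ⟨p, hp, hpl⟩ := exists_pr (R := R) x.1 n hx1
        have h1 := ih j (p, x.2) hpl hx2
        have h2 := hv.harnack hv0 x (p, x.2) (pr_mem_nbr x p hp)
        rw [← add_assoc, pow_succ, ← div_div, div_le_iff₀ (by norm_num)]
        linarith
    intro x hx hx17
    unfold rk at hx
    have := down (R.lev x.1) (R.lev x.1) x rfl (by omega)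
    refine le_trans ?_ this
    apply div_le_div_of_nonneg_left (hv0 z) (by positivity)
    exact pow_le_pow_right₀ (by norm_num) (by omega)
  -- existence of the vertices (root, t) with t of level n
  have exlev : ∀ n : ℕ, ∃ t, R.lev t = n := by
    intro n
    induction n with
    | zero => exact ⟨R.root, R.lev_root⟩
    | succ n ih =>
      obtain ⟨t, ht⟩ := ih
      obtain ⟨c, _, hc⟩ := exists_ch (R := R) t
      exact ⟨c, by omega⟩
  set S := sSup (Set.range h) with hS
  set I := sInf (Set.range h) with hI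
  have bA : BddAbove (Set.range h) := ⟨M, by rintro _ ⟨z, rfl⟩; exact (abs_le.mp (hM z)).2⟩
  have bB : BddBelow (Set.range h) := ⟨-M, by rintro _ ⟨z, rfl⟩; exact (abs_le.mp (hM z)).1⟩
  have hSup : ∀ z, h z ≤ S := fun z => le_csSup bA ⟨z, rfl⟩
  have hInf : ∀ z, I ≤ h z := fun z => csInf_le bB ⟨z, rfl⟩
  have osc : ∀ x y : T × T, h x - h y ≤ (1 - 1 / (2 * 60 ^ 34)) * (S - I) := by
    intro x y
    obtain ⟨a, haN, ha⟩ := hτ (R.rk x + R.rk y + 21)
    obtain ⟨t, ht⟩ := exlev (16 * a)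
    have hz1 : R.lev ((R.root, t) : T × T).1 = 0 := R.lev_root
    have hzr : R.rk ((R.root, t) : T × T) = 16 * a := by
      unfold rk; simp [R.lev_root, ht]
    have hv1 : R.Har τ (fun x => S - h x) := (har_const S).sub hh
    have hv2 : R.Har τ (fun x => h x - I) := hh.sub (har_const I)
    have p1 : ∀ x, 0 ≤ (fun x => S - h x) x := fun x => sub_nonneg.2 (hSup x)
    have p2 : ∀ x, 0 ≤ (fun x => h x - I) x := fun x => sub_nonneg.2 (hInf x)
    have c1 := chain _ hv1 p1 (fun x y h1 h2 => by show S - h x = S - h y; rw [hrad x y h1 h2])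
      (R.root, t) hz1
    have c2 := chain _ hv2 p2 (fun x y h1 h2 => by show h x - I = h y - I; rw [hrad x y h1 h2])
      (R.root, t) hz1
    have k1 := key (R := R) (τ := τ) a (16 * a) (by omega) (by omega) ha _ hv1 p1
      ((S - h (R.root, t)) / 60 ^ 34) (div_nonneg (p1 _) (by positivity))
      (fun x hx hx17 => c1 x (by rw [hx, hzr]) hx17)
    have k2 := key (R := R) (τ := τ) a (16 * a) (by omega) (by omega) ha _ hv2 p2
      ((h (R.root, t) - I) / 60 ^ 34) (div_nonneg (p2 _) (by positivity))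
      (fun x hx hx17 => c2 x (by rw [hx, hzr]) hx17)
    have m1 := hv1.min_ball (a + 21) _ k1 x (by omega)
    have m2 := hv2.min_ball (a + 21) _ k2 y (by omega)
    have m1' : (S - h (R.root, t)) / 60 ^ 34 / 2 ≤ S - h x := m1
    have m2' : (h (R.root, t) - I) / 60 ^ 34 / 2 ≤ h y - I := m2
    have e : (1 - 1 / (2 * 60 ^ 34)) * (S - I) = (S - I) - (S - h (R.root, t)) / 60 ^ 34 / 2
      - (h (R.root, t) - I) / 60 ^ 34 / 2 := by ring
    rw [e]
    linarith
  have hle : S - I ≤ (1 - 1 / (2 * 60 ^ 34)) * (S - I) := by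
    have hne : (Set.range h).Nonempty := ⟨h x, x, rfl⟩
    have h1 : ∀ y, S ≤ h y + (1 - 1 / (2 * 60 ^ 34)) * (S - I) := by
      intro y
      apply csSup_le hne
      rintro _ ⟨z, rfl⟩
      linarith [osc z y]
    have h2 : S - (1 - 1 / (2 * 60 ^ 34)) * (S - I) ≤ I := by
      apply le_csInf hne
      rintro _ ⟨z, rfl⟩
      linarith [h1 z]
    linarith
  have hSI : S ≤ I := by
    have : (1 / (2 * 60 ^ 34) : ℝ) * (S - I) ≤ 0 := by linarith
    have hpos : (0 : ℝ) < 1 / (2 * 60 ^ 34) := by positivity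
    have : S - I ≤ 0 := by
      by_contra hcon
      push Not at hcon
      have := mul_pos hpos hcon
      linarith
    linarith
  linarith [hSup x, hInf x, hSup y, hInf y]

include hτ in
/-- **Liouville property**. -/
theorem liouville (hτ' : ∀ N : ℕ, ∃ a, N ≤ a ∧ ∀ r, a ≤ r → r < 16 * a → τ r = false)
    {h : T × T → ℝ} (hh : R.Har τ h) (M : ℝ) (hM : ∀ x, |h x| ≤ M) (x y : T × T) :
    h x = h y := by
  apply const_of_radial hτ hh M hM
  intro x y h1 h2
  have e1 : h x = h (y.1, x.2) := radial1 hτ hh M hM x.1 y.1 x.2 h1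
  have e2 := radial1 (R := R) (τ := fun n => !τ n) (h := fun x => h x.swap) (by
    intro N
    obtain ⟨a, ha, hr⟩ := hτ' N
    exact ⟨a, ha, fun r h1 h2 => by simp [hr r h1 h2]⟩) (har_swap hh) M (fun x => hM _)
    x.2 y.2 y.1 h2
  have e3 : h (y.1, x.2) = h (y.1, y.2) := e2
  rw [e1, e3]

end RT

end Pool.Agent.LiouvilleQI
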