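import Pool.Agent.LiouvilleQI.Tree

set_option autoImplicit false

namespace Pool.Agent.LiouvilleQI

open Finset

variable {T : Type} [DecidableEq T] (R : RT T) (τ : ℕ → Bool)

namespace RT

/-- total level -/
def rk (x : T × T) : ℕ := R.lev x.1 + R.lev x.2

/-- special upward edges -/
def dup (x : T × T) : Finset (T × T) :=
  if τ (R.rk x) = true then R.pr x.1 ×ˢ R.gch x.2 else R.gch x.1 ×ˢ R.pr x.2

/-- special downward edges -/
def ddn (x : T × T) : Finset (T × T) :=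
  if τ (R.rk x - 1) = true then R.ch x.1 ×ˢ R.gpr x.2 else R.gpr x.1 ×ˢ R.ch x.2

/-- the neighbours of `x` -/
def nbr (x : T × T) : Finset (T × T) :=
  (R.ch x.1 ×ˢ {x.2}) ∪ (({x.1} ×ˢ R.ch x.2) ∪ ((R.pr x.1 ×ˢ {x.2}) ∪ (({x.1} ×ˢ R.pr x.2) ∪
  (R.dup τ x ∪ R.ddn τ x))))

/-- the sum of `h` over the neighbours of `x`, as an operator -/
noncomputable def nsum (h : T × T → ℝ) (x : T × T) : ℝ :=
  ∑ c ∈ R.ch x.1, h (c, x.2) + (∑ c ∈ R.ch x.2, h (x.1, c) + (∑ c ∈ R.pr x.1, h (c, x.2)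
  + (∑ c ∈ R.pr x.2, h (x.1, c) +
  ((if τ (R.rk x) = true then ∑ a ∈ R.pr x.1, ∑ b ∈ R.gch x.2, h (a, b)
    else ∑ a ∈ R.gch x.1, ∑ b ∈ R.pr x.2, h (a, b)) +
   (if τ (R.rk x - 1) = true then ∑ a ∈ R.ch x.1, ∑ b ∈ R.gpr x.2, h (a, b)
    else ∑ a ∈ R.gpr x.1, ∑ b ∈ R.ch x.2, h (a, b))))))

lemma mem_dup (x y : T × T) (hy : y ∈ R.dup τ x) :
    (R.lev y.1 + 1 = R.lev x.1 ∧ R.lev y.2 = R.lev x.2 + 2) ∨
    (R.lev y.1 = R.lev x.1 + 2 ∧ R.lev y.2 + 1 = R.lev x.2) := by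
  unfold dup at hy
  split_ifs at hy
  · rw [mem_product] at hy
    exact Or.inl ⟨R.lev_pr _ _ hy.1, R.lev_gch _ _ hy.2⟩
  · rw [mem_product] at hy
    exact Or.inr ⟨R.lev_gch _ _ hy.1, R.lev_pr _ _ hy.2⟩

lemma mem_ddn (x y : T × T) (hy : y ∈ R.ddn τ x) :
    (R.lev y.1 = R.lev x.1 + 1 ∧ R.lev y.2 + 2 = R.lev x.2) ∨
    (R.lev y.1 + 2 = R.lev x.1 ∧ R.lev y.2 = R.lev x.2 + 1) := by
  unfold ddn at hy
  split_ifs at hy
  · rw [mem_product] at hy
    exact Or.inl ⟨R.lev_ch _ _ hy.1, R.lev_gpr _ _ hy.2⟩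
  · rw [mem_product] at hy
    exact Or.inr ⟨R.lev_gpr _ _ hy.1, R.lev_ch _ _ hy.2⟩

lemma mem_p1 (x y : T × T) (hy : y ∈ R.ch x.1 ×ˢ {x.2}) :
    R.lev y.1 = R.lev x.1 + 1 ∧ R.lev y.2 = R.lev x.2 := by
  rw [mem_product, mem_singleton] at hy
  exact ⟨R.lev_ch _ _ hy.1, by rw [hy.2]⟩

lemma mem_p2 (x y : T × T) (hy : y ∈ {x.1} ×ˢ R.ch x.2) :
    R.lev y.1 = R.lev x.1 ∧ R.lev y.2 = R.lev x.2 + 1 := by
  rw [mem_product, mem_singleton] at hy
  exact ⟨by rw [hy.1], R.lev_ch _ _ hy.2⟩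

lemma mem_p3 (x y : T × T) (hy : y ∈ R.pr x.1 ×ˢ {x.2}) :
    R.lev y.1 + 1 = R.lev x.1 ∧ R.lev y.2 = R.lev x.2 := by
  rw [mem_product, mem_singleton] at hy
  exact ⟨R.lev_pr _ _ hy.1, by rw [hy.2]⟩

lemma mem_p4 (x y : T × T) (hy : y ∈ {x.1} ×ˢ R.pr x.2) :
    R.lev y.1 = R.lev x.1 ∧ R.lev y.2 + 1 = R.lev x.2 := by
  rw [mem_product, mem_singleton] at hy
  exact ⟨by rw [hy.1], R.lev_pr _ _ hy.2⟩

lemma sum_nbr (h : T × T → ℝ) (x : T × T) : ∑ y ∈ R.nbr τ x, h y = R.nsum τ h x := by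
  unfold nbr nsum
  rw [sum_union, sum_union, sum_union, sum_union, sum_union]
  · rw [sum_product, sum_product, sum_product, sum_product]
    simp only [sum_singleton]
    unfold dup ddn
    congr 1; congr 1; congr 1; congr 1; congr 1
    · split_ifs
      · rw [sum_product]
      · rw [sum_product]
    · split_ifs
      · rw [sum_product]
      · rw [sum_product]
  · rw [disjoint_left]
    intro y h1 h2
    have a1 := R.mem_dup τ x y h1
    have a2 := R.mem_ddn τ x y h2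
    omega
  · rw [disjoint_left]
    intro y h1 h2
    rw [mem_union] at h2
    have a1 := R.mem_p4 x y h1
    rcases h2 with h2 | h2
    · have a2 := R.mem_dup τ x y h2; omega
    · have a2 := R.mem_ddn τ x y h2; omega
  · rw [disjoint_left]
    intro y h1 h2
    rw [mem_union, mem_union] at h2
    have a1 := R.mem_p3 x y h1
    rcases h2 with h2 | h2 | h2
    · have a2 := R.mem_p4 x y h2; omega
    · have a2 := R.mem_dup τ x y h2; omega
    · have a2 := R.mem_ddn τ x y h2; omega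
  · rw [disjoint_left]
    intro y h1 h2
    rw [mem_union, mem_union, mem_union] at h2
    have a1 := R.mem_p2 x y h1
    rcases h2 with h2 | h2 | h2 | h2
    · have a2 := R.mem_p3 x y h2; omega
    · have a2 := R.mem_p4 x y h2; omega
    · have a2 := R.mem_dup τ x y h2; omega
    · have a2 := R.mem_ddn τ x y h2; omega
  · rw [disjoint_left]
    intro y h1 h2
    rw [mem_union, mem_union, mem_union, mem_union] at h2
    have a1 := R.mem_p1 x y h1
    rcases h2 with h2 | h2 | h2 | h2 | h2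
    · have a2 := R.mem_p2 x y h2; omega
    · have a2 := R.mem_p3 x y h2; omega
    · have a2 := R.mem_p4 x y h2; omega
    · have a2 := R.mem_dup τ x y h2; omega
    · have a2 := R.mem_ddn τ x y h2; omega

lemma rk_nbr (x y : T × T) (hy : y ∈ R.nbr τ x) : R.rk y = R.rk x + 1 ∨ R.rk y + 1 = R.rk x := by
  unfold nbr at hy
  simp only [mem_union] at hy
  unfold rk
  rcases hy with h2 | h2 | h2 | h2 | h2 | h2
  · have a2 := R.mem_p1 x y h2; omega
  · have a2 := R.mem_p2 x y h2; omega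
  · have a2 := R.mem_p3 x y h2; omega
  · have a2 := R.mem_p4 x y h2; omega
  · have a2 := R.mem_dup τ x y h2; omega
  · have a2 := R.mem_ddn τ x y h2; omega

lemma dup_ddn (x y : T × T) : y ∈ R.dup τ x ↔ x ∈ R.ddn τ y := by
  constructor
  · intro h
    have hr : R.rk y - 1 = R.rk x := by
      have := R.mem_dup τ x y h
      unfold rk; omega
    unfold ddn
    rw [hr]
    unfold dup at h
    split_ifs at h ⊢
    · rw [mem_product] at h ⊢
      exact ⟨(R.mem_pr _ _).1 h.1, (R.mem_gpr _ _).2 h.2⟩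
    · rw [mem_product] at h ⊢
      exact ⟨(R.mem_gpr _ _).2 h.1, (R.mem_pr _ _).1 h.2⟩
  · intro h
    have hr : R.rk y - 1 = R.rk x := by
      have := R.mem_ddn τ y x h
      unfold rk; omega
    unfold ddn at h
    rw [hr] at h
    unfold dup
    split_ifs at h ⊢
    · rw [mem_product] at h ⊢
      exact ⟨(R.mem_pr _ _).2 h.1, (R.mem_gpr _ _).1 h.2⟩
    · rw [mem_product] at h ⊢
      exact ⟨(R.mem_gpr _ _).1 h.1, (R.mem_pr _ _).2 h.2⟩

lemma nbr_symm (x y : T × T) : y ∈ R.nbr τ x ↔ x ∈ R.nbr τ y := by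
  have key : ∀ x y : T × T, y ∈ R.nbr τ x → x ∈ R.nbr τ y := by
    intro x y hy
    unfold nbr at hy ⊢
    simp only [mem_union] at hy ⊢
    rcases hy with h2 | h2 | h2 | h2 | h2 | h2
    · rw [mem_product, mem_singleton] at h2
      refine Or.inr (Or.inr (Or.inl ?_))
      rw [mem_product, mem_singleton]
      exact ⟨(R.mem_pr _ _).2 h2.1, h2.2.symm⟩
    · rw [mem_product, mem_singleton] at h2
      refine Or.inr (Or.inr (Or.inr (Or.inl ?_)))
      rw [mem_product, mem_singleton]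
      exact ⟨h2.1.symm, (R.mem_pr _ _).2 h2.2⟩
    · rw [mem_product, mem_singleton] at h2
      refine Or.inl ?_
      rw [mem_product, mem_singleton]
      exact ⟨(R.mem_pr _ _).1 h2.1, h2.2.symm⟩
    · rw [mem_product, mem_singleton] at h2
      refine Or.inr (Or.inl ?_)
      rw [mem_product, mem_singleton]
      exact ⟨h2.1.symm, (R.mem_pr _ _).1 h2.2⟩
    · exact Or.inr (Or.inr (Or.inr (Or.inr (Or.inr ((R.dup_ddn τ x y).1 h2)))))
    · exact Or.inr (Or.inr (Or.inr (Or.inr (Or.inl ((R.dup_ddn τ y x).2 h2)))))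
  exact ⟨key x y, key y x⟩

/-- every vertex has an upward neighbour -/
lemma exists_up (x : T × T) : ∃ y ∈ R.nbr τ x, R.rk y = R.rk x + 1 := by
  have hc : 0 < (R.ch x.1).card := by rw [R.card_ch]; split_ifs <;> norm_num
  obtain ⟨c, hc⟩ := Finset.card_pos.mp hc
  refine ⟨(c, x.2), ?_, ?_⟩
  · unfold nbr
    rw [mem_union]
    left
    rw [mem_product]
    exact ⟨hc, by simp⟩
  · unfold rk
    have := R.lev_ch _ _ hc
    simp only
    omega

/-- finite balls -/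
def ball (b : ℕ) : Finset (T × T) :=
  (((range (b+1)).biUnion R.sph) ×ˢ ((range (b+1)).biUnion R.sph)).filter (fun x => R.rk x ≤ b)

lemma mem_ball (b : ℕ) (x : T × T) : x ∈ R.ball b ↔ R.rk x ≤ b := by
  unfold ball
  rw [mem_filter, mem_product, mem_biUnion, mem_biUnion]
  constructor
  · exact fun h => h.2
  · intro h
    refine ⟨⟨⟨R.lev x.1, ?_, (R.mem_sph _ _).2 rfl⟩, ⟨R.lev x.2, ?_, (R.mem_sph _ _).2 rfl⟩⟩, h⟩
    · rw [mem_range]; unfold rk at h; omega
    · rw [mem_range]; unfold rk at h; omega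

/-- The finite maximum principle. -/
lemma max_principle (v : T × T → ℝ) (b : ℕ)
    (hv : ∀ x, R.rk x ≤ b → v x ≤ 0 ∨
      (R.rk x < b ∧ ((R.nbr τ x).card : ℝ) * v x ≤ ∑ y ∈ R.nbr τ x, v y)) :
    ∀ x, R.rk x ≤ b → v x ≤ 0 := by
  by_contra hcon
  push Not at hcon
  obtain ⟨x0, hx0, hvx0⟩ := hcon
  obtain ⟨x1, hx1, hmax⟩ := Finset.exists_max_image (R.ball b) v ⟨x0, (R.mem_ball b x0).2 hx0⟩
  have hM : 0 < v x1 := lt_of_lt_of_le hvx0 (hmax x0 ((R.mem_ball b x0).2 hx0))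
  -- among maximisers take one of maximal rank
  obtain ⟨x2, hx2, hmax2⟩ := Finset.exists_max_image ((R.ball b).filter (fun x => v x = v x1)) R.rk
    ⟨x1, by rw [mem_filter]; exact ⟨hx1, rfl⟩⟩
  rw [mem_filter] at hx2
  have hx2b : R.rk x2 ≤ b := (R.mem_ball b x2).1 hx2.1
  rcases hv x2 hx2b with h | ⟨hlt, hsub⟩
  · rw [hx2.2] at h; linarith
  · have hnb : ∀ y ∈ R.nbr τ x2, v y ≤ v x2 := by
      intro y hy
      rw [hx2.2]
      apply hmax
      rw [R.mem_ball]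
      rcases R.rk_nbr τ x2 y hy with h | h <;> omega
    obtain ⟨y, hy, hyr⟩ := R.exists_up τ x2
    have hylt : v y < v x2 := by
      refine lt_of_le_of_ne (hnb y hy) ?_
      intro heq
      have hyb : y ∈ (R.ball b).filter (fun x => v x = v x1) := by
        rw [mem_filter, R.mem_ball]
        exact ⟨by omega, by rw [heq, hx2.2]⟩
      have := hmax2 y hyb
      omega
    have : ∑ y ∈ R.nbr τ x2, v y < ∑ _y ∈ R.nbr τ x2, v x2 :=
      Finset.sum_lt_sum hnb ⟨y, hy, hylt⟩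
    rw [Finset.sum_const, nsmul_eq_mul] at this
    linarith

end RT

end Pool.Agent.LiouvilleQI
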