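import Pool.Agent.LiouvilleQI.Nbr

set_option autoImplicit false

namespace Pool.Agent.LiouvilleQI

open Finset

variable {T : Type} [DecidableEq T] (R : RT T) (τ : ℕ → Bool)

namespace RT

/-- the neighbour sum of a radial function -/
noncomputable def rsum (f : ℕ → ℕ → ℝ) (l m : ℕ) : ℝ :=
  (if l = 0 then 4 else 3) * f (l+1) m + ((if m = 0 then 4 else 3) * f l (m+1)
  + ((if l = 0 then 0 else 1) * f (l-1) m + ((if m = 0 then 0 else 1) * f l (m-1)
  + ((if τ (l+m) = true then (if l = 0 then 0 else 1) * (((if m = 0 then 4 else 3) * 3) * f (l-1) (m+2))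
      else ((if l = 0 then 4 else 3) * 3) * ((if m = 0 then 0 else 1) * f (l+2) (m-1)))
   + (if τ (l+m-1) = true then (if l = 0 then 4 else 3) * ((if m ≤ 1 then 0 else 1) * f (l+1) (m-2))
      else (if l ≤ 1 then 0 else 1) * ((if m = 0 then 4 else 3) * f (l-2) (m+1)))))))

omit [DecidableEq T] in
lemma sum_const_of (s : Finset T) (g : T → ℝ) (c : ℝ) (h : ∀ x ∈ s, g x = c) :
    ∑ x ∈ s, g x = (s.card : ℝ) * c := by
  rw [Finset.sum_congr rfl h, Finset.sum_const, nsmul_eq_mul]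

lemma nsum_radial (f : ℕ → ℕ → ℝ) (x : T × T) :
    R.nsum τ (fun y => f (R.lev y.1) (R.lev y.2)) x = rsum τ f (R.lev x.1) (R.lev x.2) := by
  unfold nsum rsum
  have e1 : ∑ c ∈ R.ch x.1, f (R.lev c) (R.lev x.2)
      = (if R.lev x.1 = 0 then 4 else 3) * f (R.lev x.1 + 1) (R.lev x.2) := by
    rw [sum_const_of (R.ch x.1) _ (f (R.lev x.1 + 1) (R.lev x.2))
      (fun c hc => by rw [R.lev_ch _ _ hc]), R.card_ch]
    split_ifs <;> simp
  have e2 : ∑ c ∈ R.ch x.2, f (R.lev x.1) (R.lev c)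
      = (if R.lev x.2 = 0 then 4 else 3) * f (R.lev x.1) (R.lev x.2 + 1) := by
    rw [sum_const_of (R.ch x.2) _ (f (R.lev x.1) (R.lev x.2 + 1))
      (fun c hc => by rw [R.lev_ch _ _ hc]), R.card_ch]
    split_ifs <;> simp
  have e3 : ∑ c ∈ R.pr x.1, f (R.lev c) (R.lev x.2)
      = (if R.lev x.1 = 0 then 0 else 1) * f (R.lev x.1 - 1) (R.lev x.2) := by
    rw [sum_const_of (R.pr x.1) _ (f (R.lev x.1 - 1) (R.lev x.2))
      (fun c hc => by rw [← R.lev_pr _ _ hc]; simp), R.card_pr]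
    split_ifs <;> simp
  have e4 : ∑ c ∈ R.pr x.2, f (R.lev x.1) (R.lev c)
      = (if R.lev x.2 = 0 then 0 else 1) * f (R.lev x.1) (R.lev x.2 - 1) := by
    rw [sum_const_of (R.pr x.2) _ (f (R.lev x.1) (R.lev x.2 - 1))
      (fun c hc => by rw [← R.lev_pr _ _ hc]; simp), R.card_pr]
    split_ifs <;> simp
  have e5 : ∑ a ∈ R.pr x.1, ∑ b ∈ R.gch x.2, f (R.lev a) (R.lev b)
      = (if R.lev x.1 = 0 then 0 else 1) *
        (((if R.lev x.2 = 0 then 4 else 3) * 3) * f (R.lev x.1 - 1) (R.lev x.2 + 2)) := by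
    rw [sum_const_of (R.pr x.1) _ (((if R.lev x.2 = 0 then 4 else 3) * 3)
        * f (R.lev x.1 - 1) (R.lev x.2 + 2)), R.card_pr]
    · split_ifs <;> simp
    · intro a ha
      rw [sum_const_of (R.gch x.2) _ (f (R.lev x.1 - 1) (R.lev x.2 + 2)), R.card_gch]
      · split_ifs <;> norm_num
      · intro b hb
        rw [R.lev_gch _ _ hb, ← R.lev_pr _ _ ha]; simp
  have e6 : ∑ a ∈ R.gch x.1, ∑ b ∈ R.pr x.2, f (R.lev a) (R.lev b)
      = ((if R.lev x.1 = 0 then 4 else 3) * 3) *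
        ((if R.lev x.2 = 0 then 0 else 1) * f (R.lev x.1 + 2) (R.lev x.2 - 1)) := by
    rw [sum_const_of (R.gch x.1) _ ((if R.lev x.2 = 0 then 0 else 1)
        * f (R.lev x.1 + 2) (R.lev x.2 - 1)), R.card_gch]
    · split_ifs <;> norm_num
    · intro a ha
      rw [sum_const_of (R.pr x.2) _ (f (R.lev x.1 + 2) (R.lev x.2 - 1)), R.card_pr]
      · split_ifs <;> simp
      · intro b hb
        rw [R.lev_gch _ _ ha, ← R.lev_pr _ _ hb]; simp
  have e7 : ∑ a ∈ R.ch x.1, ∑ b ∈ R.gpr x.2, f (R.lev a) (R.lev b)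
      = (if R.lev x.1 = 0 then 4 else 3) *
        ((if R.lev x.2 ≤ 1 then 0 else 1) * f (R.lev x.1 + 1) (R.lev x.2 - 2)) := by
    rw [sum_const_of (R.ch x.1) _ ((if R.lev x.2 ≤ 1 then 0 else 1)
        * f (R.lev x.1 + 1) (R.lev x.2 - 2)), R.card_ch]
    · split_ifs <;> simp
    · intro a ha
      rw [sum_const_of (R.gpr x.2) _ (f (R.lev x.1 + 1) (R.lev x.2 - 2)), R.card_gpr]
      · split_ifs <;> simp
      · intro b hb
        rw [R.lev_ch _ _ ha, ← R.lev_gpr _ _ hb]; simp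
  have e8 : ∑ a ∈ R.gpr x.1, ∑ b ∈ R.ch x.2, f (R.lev a) (R.lev b)
      = (if R.lev x.1 ≤ 1 then 0 else 1) *
        ((if R.lev x.2 = 0 then 4 else 3) * f (R.lev x.1 - 2) (R.lev x.2 + 1)) := by
    rw [sum_const_of (R.gpr x.1) _ ((if R.lev x.2 = 0 then 4 else 3)
        * f (R.lev x.1 - 2) (R.lev x.2 + 1)), R.card_gpr]
    · split_ifs <;> simp
    · intro a ha
      rw [sum_const_of (R.ch x.2) _ (f (R.lev x.1 - 2) (R.lev x.2 + 1)), R.card_ch]
      · split_ifs <;> simp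
      · intro b hb
        rw [R.lev_ch _ _ hb, ← R.lev_gpr _ _ ha]; simp
  simp only [e1, e2, e3, e4, e5, e6, e7, e8]
  rfl

lemma card_nbr (x : T × T) : ((R.nbr τ x).card : ℝ) = rsum τ (fun _ _ => 1) (R.lev x.1) (R.lev x.2) := by
  rw [← nsum_radial, ← sum_nbr]
  simp

lemma card_nbr_le (x : T × T) : ((R.nbr τ x).card : ℝ) ≤ 60 := by
  rw [card_nbr]
  unfold rsum
  split_ifs <;> norm_num

/-- the barrier -/
noncomputable def psi (a b : ℕ) (l m : ℕ) : ℝ :=
  20 + ((5/4 : ℝ)^l - 20) * ((21/20 : ℝ)^(l+m) / (21/20 : ℝ)^b)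
    + 44 * ((6/5 : ℝ)^a / (6/5 : ℝ)^(l+m))

lemma psi_super (a b l m : ℕ) (h2 : 2 ≤ l + m) (hτ1 : τ (l+m) = true) (hτ2 : τ (l+m-1) = true) :
    rsum τ (psi a b) l m ≤ rsum τ (fun _ _ => 1) l m * psi a b l m := by
  unfold rsum
  simp only [hτ1, hτ2, if_true]
  unfold psi
  have hB : (0 : ℝ) < (21/20 : ℝ)^b := by positivity
  have hA : (0 : ℝ) < (6/5 : ℝ)^a := by positivity
  have k1 : ∀ n j : ℕ, (21/20 : ℝ)^(n + j) / (21/20 : ℝ)^b
      = (21/20)^j * ((21/20 : ℝ)^n / (21/20 : ℝ)^b) := by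
    intro n j; rw [pow_add]; ring
  have k2 : ∀ n j : ℕ, (6/5 : ℝ)^a / (6/5 : ℝ)^(n + j) = (5/6)^j * ((6/5 : ℝ)^a / (6/5 : ℝ)^n) := by
    intro n j; rw [pow_add]
    have : (5/6 : ℝ)^j * (6/5)^j = 1 := by rw [← mul_pow]; norm_num
    field_simp
    linear_combination (-1 : ℝ) * this
  rcases l with _ | l
  · -- l = 0
    obtain ⟨m, rfl⟩ : ∃ k, m = k + 2 := ⟨m - 2, by omega⟩
    simp only [Nat.zero_add, Nat.add_sub_cancel, if_true]
    have e1 : m + 2 - 1 = m + 1 := by omega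
    have e2 : ¬ (m + 2 = 0) := by omega
    have e3 : ¬ (m + 2 ≤ 1) := by omega
    simp only [e1, e2, e3, if_false]
    have r1 : 1 + (m + 2) = m + 3 := by omega
    have r2 : m + 2 + 1 = m + 3 := by omega
    have r4 : 1 + m = m + 1 := by omega
    simp only [r1, r2, r4]
    simp only [k1 m, k2 m]
    have hPp : (0 : ℝ) < (21/20 : ℝ)^m / (21/20 : ℝ)^b := by positivity
    have hQp : (0 : ℝ) < (6/5 : ℝ)^a / (6/5 : ℝ)^m := by positivity
    generalize (21/20 : ℝ)^m / (21/20 : ℝ)^b = P at *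
    generalize (6/5 : ℝ)^a / (6/5 : ℝ)^m = Q at *
    norm_num
    nlinarith
  · have hl1 : ¬ (l + 1 = 0) := by omega
    simp only [hl1, if_false]
    have hP0 : (1 : ℝ) ≤ (5/4 : ℝ)^l := one_le_pow₀ (by norm_num)
    have e0 : l + 1 - 1 = l := by omega
    have e0' : l + 1 + 1 = l + 2 := by omega
    simp only [e0, e0']
    have j1 : (5/4 : ℝ)^(l+1) = 5/4 * (5/4 : ℝ)^l := by rw [pow_succ]; ring
    have j2 : (5/4 : ℝ)^(l+2) = 25/16 * (5/4 : ℝ)^l := by rw [pow_add]; norm_num; ring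
    rcases m with _ | _ | m
    · have r1 : l + 2 + 0 = l + 2 := by omega
      have r2 : l + 1 + (0 + 1) = l + 2 := by omega
      have r3 : l + (0 + 2) = l + 2 := by omega
      have r4 : l + 0 = l + 0 := rfl
      have r5 : l + 1 + 0 = l + 1 := by omega
      simp only [if_true, Nat.zero_le, zero_mul, zero_add, add_zero]
      simp only [j1, j2, r1, k1 l, k2 l]
      have hPp : (0 : ℝ) < (21/20 : ℝ)^l / (21/20 : ℝ)^b := by positivity
      have hQp : (0 : ℝ) < (6/5 : ℝ)^a / (6/5 : ℝ)^l := by positivity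
      generalize (21/20 : ℝ)^l / (21/20 : ℝ)^b = P at *
      generalize (6/5 : ℝ)^a / (6/5 : ℝ)^l = Q at *
      generalize (5/4 : ℝ)^l = S at *
      norm_num
      have : 0 ≤ (S - 1) * P := mul_nonneg (by linarith) hPp.le
      nlinarith
    · have r1 : l + 2 + 1 = l + 3 := by omega
      have r2 : l + 1 + (0 + 1 + 1) = l + 3 := by omega
      have r3 : l + (0 + 1) = l + 1 := by omega
      have r4 : l + 1 + (0 + 1 - 1) = l + 1 := by omega
      have r5 : l + (0 + 1 + 2) = l + 3 := by omega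
      have r6 : l + 1 + (0 + 1) = l + 2 := by omega
      have r7 : ¬ (0 + 1 = 0) := by omega
      have r8 : l + 2 + (0 + 1) = l + 3 := by omega
      simp only [r7, if_false, r2, r3, r6, j1, j2, k1 l, k2 l]
      have hPp : (0 : ℝ) < (21/20 : ℝ)^l / (21/20 : ℝ)^b := by positivity
      have hQp : (0 : ℝ) < (6/5 : ℝ)^a / (6/5 : ℝ)^l := by positivity
      generalize (21/20 : ℝ)^l / (21/20 : ℝ)^b = P at *
      generalize (6/5 : ℝ)^a / (6/5 : ℝ)^l = Q at *
      generalize (5/4 : ℝ)^l = S at *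
      norm_num
      have : 0 ≤ (S - 1) * P := mul_nonneg (by linarith) hPp.le
      nlinarith
    · have r7 : ¬ (m + 1 + 1 = 0) := by omega
      have r8 : ¬ (m + 1 + 1 ≤ 1) := by omega
      have r9 : m + 1 + 1 - 1 = m + 1 := by omega
      have r10 : m + 1 + 1 - 2 = m := by omega
      have s1 : l + 2 + (m + 1 + 1) = (l + m) + 4 := by omega
      have s2 : l + 1 + (m + 1 + 1 + 1) = (l + m) + 4 := by omega
      have s3 : l + (m + 1 + 1) = (l + m) + 2 := by omega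
      have s4 : l + 1 + (m + 1) = (l + m) + 2 := by omega
      have s5 : l + (m + 1 + 1 + 2) = (l + m) + 4 := by omega
      have s6 : l + 1 + (m + 1 + 1) = (l + m) + 3 := by omega
      have s7 : l + 2 + m = (l + m) + 2 := by omega
      simp only [r7, r8, if_false, r9, r10, s1, s2, s3, s4, s5, s6, s7, j1, j2, k1 (l+m), k2 (l+m)]
      have hPp : (0 : ℝ) < (21/20 : ℝ)^(l+m) / (21/20 : ℝ)^b := by positivity
      have hQp : (0 : ℝ) < (6/5 : ℝ)^a / (6/5 : ℝ)^(l+m) := by positivity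
      generalize (21/20 : ℝ)^(l+m) / (21/20 : ℝ)^b = P at *
      generalize (6/5 : ℝ)^a / (6/5 : ℝ)^(l+m) = Q at *
      generalize (5/4 : ℝ)^l = S at *
      norm_num
      have : 0 ≤ (S - 1) * P := mul_nonneg (by linarith) hPp.le
      nlinarith

end RT

end Pool.Agent.LiouvilleQI
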