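import Mathlib

set_option autoImplicit false

namespace Pool.Agent.LiouvilleQI

open Finset

/-- A rooted tree with levels; the root has 4 children, every other vertex has 3 children. -/
structure RT (T : Type) [DecidableEq T] where
  lev : T → ℕ
  ch : T → Finset T
  pr : T → Finset T
  sph : ℕ → Finset T
  root : T
  mem_pr : ∀ s t, s ∈ pr t ↔ t ∈ ch s
  lev_ch : ∀ s t, s ∈ ch t → lev s = lev t + 1
  card_ch : ∀ t, (ch t).card = if lev t = 0 then 4 else 3
  card_pr : ∀ t, (pr t).card = if lev t = 0 then 0 else 1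
  mem_sph : ∀ n x, x ∈ sph n ↔ lev x = n
  lev_root : lev root = 0
  eq_root : ∀ x, lev x = 0 → x = root

variable {T : Type} [DecidableEq T] (R : RT T)

namespace RT

def gch (t : T) : Finset T := (R.ch t).biUnion R.ch
def gpr (t : T) : Finset T := (R.pr t).biUnion R.pr

lemma mem_gpr (s t : T) : s ∈ R.gpr t ↔ t ∈ R.gch s := by
  simp only [gpr, gch, mem_biUnion, R.mem_pr]
  constructor
  · rintro ⟨u, h1, h2⟩; exact ⟨u, h2, h1⟩
  · rintro ⟨u, h1, h2⟩; exact ⟨u, h2, h1⟩

lemma lev_pr (s t : T) (h : s ∈ R.pr t) : lev R s + 1 = lev R t := by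
  rw [R.mem_pr] at h
  have := R.lev_ch _ _ h
  omega

lemma lev_gch (s t : T) (h : s ∈ R.gch t) : lev R s = lev R t + 2 := by
  simp only [gch, mem_biUnion] at h
  obtain ⟨u, h1, h2⟩ := h
  have := R.lev_ch _ _ h1
  have := R.lev_ch _ _ h2
  omega

lemma lev_gpr (s t : T) (h : s ∈ R.gpr t) : lev R s + 2 = lev R t := by
  rw [mem_gpr] at h
  have := R.lev_gch _ _ h
  omega

lemma pr_unique (s s' t : T) (h : s ∈ R.pr t) (h' : s' ∈ R.pr t) : s = s' := by
  have hc : (R.pr t).card ≤ 1 := by
    rw [R.card_pr]; split_ifs <;> simp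
  exact Finset.card_le_one.mp hc s h s' h'

lemma card_gch (t : T) : (R.gch t).card = (if R.lev t = 0 then 4 else 3) * 3 := by
  unfold gch
  rw [Finset.card_biUnion]
  · have : ∀ u ∈ R.ch t, (R.ch u).card = 3 := by
      intro u hu
      rw [R.card_ch, R.lev_ch _ _ hu]
      simp
    rw [Finset.sum_congr rfl this]
    simp [R.card_ch]
  · intro x hx y hy hxy
    show Disjoint (R.ch x) (R.ch y)
    rw [Finset.disjoint_left]
    intro z hz hz'
    exact hxy (R.pr_unique x y z ((R.mem_pr _ _).2 hz) ((R.mem_pr _ _).2 hz'))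

lemma card_gpr (t : T) : (R.gpr t).card = if R.lev t ≤ 1 then 0 else 1 := by
  unfold gpr
  by_cases h0 : R.lev t = 0
  · have : R.pr t = ∅ := by
      rw [← Finset.card_eq_zero, R.card_pr]; simp [h0]
    simp [this, h0]
  · have h1 : (R.pr t).card = 1 := by rw [R.card_pr]; simp [h0]
    obtain ⟨u, hu⟩ := Finset.card_eq_one.mp h1
    have hl := R.lev_pr u t (by simp [hu])
    rw [hu, Finset.singleton_biUnion, R.card_pr]
    by_cases h2 : R.lev u = 0
    · have : R.lev t ≤ 1 := by omega
      simp [h2, this]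
    · have : ¬ R.lev t ≤ 1 := by omega
      simp [h2, this]

/-- Average over the sphere through `t`. -/
noncomputable def avg (f : T → ℝ) (t : T) : ℝ :=
  (∑ s ∈ R.sph (R.lev t), f s) / ((R.sph (R.lev t)).card : ℝ)

lemma sph_card_pos (t : T) : (0 : ℝ) < ((R.sph (R.lev t)).card : ℝ) := by
  have : t ∈ R.sph (R.lev t) := (R.mem_sph _ _).2 rfl
  exact_mod_cast Finset.card_pos.mpr ⟨t, this⟩

lemma avg_root (f : T → ℝ) (t : T) (ht : R.lev t = 0) : R.avg f t = f t := by
  have hs : R.sph (R.lev t) = {t} := by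
    ext x
    rw [R.mem_sph, Finset.mem_singleton]
    constructor
    · intro hx
      rw [R.eq_root x (by omega), R.eq_root t ht]
    · rintro rfl; rfl
  simp [avg, hs]

/-- A level-shifting relation with degrees depending only on the level commutes with
averaging over spheres. -/
lemma avg_comm (E E' : T → Finset T) (δ : ℤ) (e e' : ℕ → ℕ)
    (hE : ∀ s t, s ∈ E' t ↔ t ∈ E s)
    (hlev : ∀ s t, s ∈ E t → (R.lev s : ℤ) = R.lev t + δ)
    (he : ∀ t, (E t).card = e (R.lev t))
    (he' : ∀ t, (E' t).card = e' (R.lev t))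
    (f : T → ℝ) (t : T) :
    ∑ x ∈ E t, R.avg f x = R.avg (fun s => ∑ x ∈ E s, f x) t := by
  by_cases h0 : e (R.lev t) = 0
  · have h1 : E t = ∅ := by rw [← Finset.card_eq_zero, he, h0]
    have h2 : ∀ s ∈ R.sph (R.lev t), ∑ x ∈ E s, f x = 0 := by
      intro s hs
      have hs' := (R.mem_sph _ _).1 hs
      have : E s = ∅ := by rw [← Finset.card_eq_zero, he, hs', h0]
      simp [this]
    simp only [avg]
    rw [h1, Finset.sum_congr rfl h2]
    simp
  · have hne : (E t).Nonempty := by
      rw [← Finset.card_pos, he]; omega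
    obtain ⟨x0, hx0⟩ := hne
    set k := R.lev x0 with hk
    have hkl : (k : ℤ) = R.lev t + δ := hlev _ _ hx0
    -- double counting
    have key : ∀ g : T → ℝ, ∑ s ∈ R.sph (R.lev t), ∑ x ∈ E s, g x
        = (e' k : ℝ) * ∑ x ∈ R.sph k, g x := by
      intro g
      have : ∑ s ∈ R.sph (R.lev t), ∑ x ∈ E s, g x
          = ∑ x ∈ R.sph k, ∑ s ∈ E' x, g x := by
        apply Finset.sum_comm'
        intro s x
        rw [R.mem_sph, R.mem_sph, hE]
        constructor
        · rintro ⟨hs, hx⟩
          refine ⟨hx, ?_⟩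
          have := hlev _ _ hx
          omega
        · rintro ⟨hx, hs⟩
          refine ⟨?_, hx⟩
          have := hlev _ _ hx
          omega
      rw [this, Finset.mul_sum]
      apply Finset.sum_congr rfl
      intro x hx
      rw [Finset.sum_const, he', (R.mem_sph _ _).1 hx, nsmul_eq_mul]
    have hcard : ((R.sph (R.lev t)).card : ℝ) * (e (R.lev t) : ℝ)
        = (e' k : ℝ) * ((R.sph k).card : ℝ) := by
      have h := key (fun _ => 1)
      have h' : ∑ s ∈ R.sph (R.lev t), ∑ x ∈ E s, (1 : ℝ)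
          = ∑ s ∈ R.sph (R.lev t), (e (R.lev t) : ℝ) := by
        apply Finset.sum_congr rfl
        intro s hs
        rw [Finset.sum_const, he, (R.mem_sph _ _).1 hs]; simp
      rw [h'] at h
      simpa using h
    have hL : ∑ x ∈ E t, R.avg f x
        = (e (R.lev t) : ℝ) * ((∑ s ∈ R.sph k, f s) / ((R.sph k).card : ℝ)) := by
      have : ∀ x ∈ E t, R.avg f x = (∑ s ∈ R.sph k, f s) / ((R.sph k).card : ℝ) := by
        intro x hx
        have h1 := hlev _ _ hx
        have h2 : R.lev x = k := by omega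
        simp only [avg, h2]
      rw [Finset.sum_congr rfl this, Finset.sum_const, he, nsmul_eq_mul]
    rw [hL]
    simp only [avg]
    rw [key f]
    have hp1 := R.sph_card_pos t
    have hp2 : (0 : ℝ) < ((R.sph k).card : ℝ) := R.sph_card_pos x0
    rw [mul_div_assoc', div_eq_div_iff hp2.ne' hp1.ne']
    linear_combination (∑ x ∈ R.sph k, f x) * hcard

end RT

end Pool.Agent.LiouvilleQI
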